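import Pool.Agent.Lib_helper53.SLPD.Free
import Pool.Agent.Lib_helper50.SLPQ.Final

/-!
# The six measures
-/

namespace Pool.Agent.SLPQ

open Polynomial

theorem AlgebraicWitness.mono {n s s' : ℕ} {f : List Bool → Prop} (h : AlgebraicWitness n f s)
    (hs : s ≤ s') : AlgebraicWitness n f s' := by
  obtain ⟨k, hk, F, hF1, hF2, hF3⟩ := h
  refine ⟨k, hk.trans hs, F, hF1.trans hs, hF2, fun x hx => ⟨(hF3 x hx).1, fun hfx => ?_⟩⟩
  obtain ⟨z, h1, ⟨l, h2, h3, h4⟩, h5⟩ := (hF3 x hx).2 hfx
  exact ⟨z, h1, ⟨l, h2.mono hs, h3.trans hs, h4⟩, h5⟩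

theorem TriangularWitness.mono {n s s' : ℕ} {f : List Bool → Prop} (h : TriangularWitness n f s)
    (hs : s ≤ s') : TriangularWitness n f s' := by
  obtain ⟨k, hk, d, q, hq, F, hF1, hF2, hF3⟩ := h
  exact ⟨k, hk.trans hs, d, q, fun i hi => ⟨(hq i hi).1.trans hs, fun j hj =>
    ⟨((hq i hi).2 j hj).1.trans hs, ((hq i hi).2 j hj).2⟩⟩, F, hF1.trans hs, hF2, hF3⟩

theorem computed_algebraic {n s : ℕ} {f : List Bool → Prop} (h : ComputedWitness False n f s) :
    AlgebraicWitness n f s := by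
  obtain ⟨k, hk, F, hF1, hF2, hF3⟩ := h
  refine ⟨k, hk, F, hF1, hF2, fun x hx => ⟨(hF3 x hx).1, fun hfx => ?_⟩⟩
  obtain ⟨z, h1, ⟨l, h2, h3, h4⟩, h5⟩ := (hF3 x hx).2 hfx
  exact ⟨z, h1, ⟨l, h2.toAl, h3, h4⟩, h5⟩

theorem RF_mono (D : ℕ) {S S' : ℕ} (h : S ≤ S') : RF D S ≤ RF D S' := by
  have h1 : KB D S ≤ KB D S' := KB_mono D h
  have h2 : KB D (S + SX D) ≤ KB D (S' + SX D) := KB_mono D (by omega)
  have h3 : KT D S ≤ KT D S' := by rw [KT, KT]; omega
  have h4 : KI D S (KB D S + S + 2) ≤ KI D S' (KB D S' + S' + 2) := by rw [KI, KI]; omega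
  have h5 : L0 D (KT D S) ≤ L0 D (KT D S') := by rw [L0, L0]; omega
  have h6 : L1 D (KT D S) (KI D S (KB D S + S + 2)) ≤
      L1 D (KT D S') (KI D S' (KB D S' + S' + 2)) := by
    rw [L1, L1]
    have := Nat.mul_le_mul_right (6 * (D + 1) + 3) h4
    omega
  have h7 : LG D (KT D S) (KI D S (KB D S + S + 2)) ≤
      LG D (KT D S') (KI D S' (KB D S' + S' + 2)) := by
    rw [LG, LG]
    have := Nat.mul_le_mul_left D h6
    omega
  rw [RF, RF]
  have := Nat.mul_le_mul h h7
  omega

theorem algebraic_computed : PolyLe AlgebraicWitness (ComputedWitness False) := by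
  obtain ⟨c, hc⟩ : PB fun s => RF (s + 1) (2 * s + 1) :=
    PB.RF (PB.id.add (PB.const 1)) (((PB.const 2).mul PB.id).add (PB.const 1))
  refine ⟨c + 1, fun n f s h => ?_⟩
  obtain ⟨k, hk, F, hF1, hF2, hF3⟩ := h
  have h1 : 1 ≤ (n + s + 2) ^ c := Nat.one_le_pow _ _ (by omega)
  have hs : s ≤ (n + s + 2) ^ (c + 1) := by
    rw [pow_succ]; nlinarith
  have hb : RF (s + 1) (2 * s + 1) ≤ (n + s + 2) ^ (c + 1) := by
    calc RF (s + 1) (2 * s + 1) ≤ (s + 2) ^ c := hc s
      _ ≤ (n + s + 2) ^ c := Nat.pow_le_pow_left (by omega) _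
      _ ≤ (n + s + 2) ^ (c + 1) := Nat.pow_le_pow_right (by omega) (by omega)
  refine ⟨k, hk.trans hs, F, hF1.trans hs, hF2, fun x hx => ⟨(hF3 x hx).1, fun hfx => ?_⟩⟩
  obtain ⟨z, h1, ⟨l, h2, h3, h4⟩, h5⟩ := (hF3 x hx).2 hfx
  obtain ⟨z', g1, g2, g3⟩ := root_free F x (show 1 ≤ s + 1 by omega) (h2.mono (by omega)) h3 h4 h5
  exact ⟨z', g1.trans h1, g2.mono id ((RF_mono _ (by omega)).trans hb), g3⟩

theorem measures6_mono : ∀ M ∈ measures6, ∀ n f s s', M n f s → s ≤ s' → M n f s' := by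
  intro M hM
  simp only [measures6, List.mem_cons, List.not_mem_nil, or_false] at hM
  rcases hM with rfl | rfl | rfl | rfl | rfl | rfl
  · exact fun n f s s' h hs => h.mono hs
  · exact fun n f s s' h hs => h.mono hs
  · exact fun n f s s' h hs => h.mono hs
  · exact fun n f s s' h hs => h.mono hs
  · exact fun n f s s' h hs => h.mono hs
  · exact fun n f s s' h hs => h.mono hs

theorem main6_of (h1 : PolyLe TriangularWitness AlgebraicWitness)
    (h2 : PolyLe OneQuery TriangularWitness) : ∀ M ∈ measures6, ∀ M' ∈ measures6, PolyLe M M' ∧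
    (PolyLe RealWitness M → PolyLe RealWitness M') := by
  have m1 : ∀ n f s s', Nondet n f s → s ≤ s' → Nondet n f s' := fun n f s s' h hs => h.mono hs
  have m2 : ∀ n f s s', ComputedWitness False n f s → s ≤ s' → ComputedWitness False n f s' :=
    fun n f s s' h hs => h.mono hs
  have m3 : ∀ n f s s', TriangularWitness n f s → s ≤ s' → TriangularWitness n f s' :=
    fun n f s s' h hs => h.mono hs
  have a1 : PolyLe AlgebraicWitness Nondet :=
    algebraic_computed.trans m1 (le_nondet _ (by simp [measures]))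
  have hle : ∀ M ∈ measures6, PolyLe M Nondet := by
    intro M hM
    simp only [measures6, List.mem_cons, List.not_mem_nil, or_false] at hM
    rcases hM with rfl | rfl | rfl | rfl | rfl | rfl
    · exact le_nondet _ (by simp [measures])
    · exact le_nondet _ (by simp [measures])
    · exact le_nondet _ (by simp [measures])
    · exact le_nondet _ (by simp [measures])
    · exact a1
    · exact h1.trans m1 a1
  have hge : ∀ M ∈ measures6, PolyLe Nondet M := by
    intro M hM
    simp only [measures6, List.mem_cons, List.not_mem_nil, or_false] at hM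
    rcases hM with rfl | rfl | rfl | rfl | rfl | rfl
    · exact nondet_le _ (by simp [measures])
    · exact nondet_le _ (by simp [measures])
    · exact nondet_le _ (by simp [measures])
    · exact nondet_le _ (by simp [measures])
    · obtain ⟨c, hc⟩ := nondet_le (ComputedWitness False) (by simp [measures])
      exact ⟨c, fun n f s h => computed_algebraic (hc n f s h)⟩
    · exact (nondet_le OneQuery (by simp [measures])).trans m3 h2
  intro M hM M' hM'
  have h := (hle M hM).trans (measures6_mono M' hM') (hge M' hM')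
  exact ⟨h, fun h' => h'.trans (measures6_mono M' hM') h⟩

end Pool.Agent.SLPQ
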