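import Pool.Agent.Lib_helper53.SLPD.Bdd

/-!
# Approximation of computations with real roots
-/

namespace Pool.Agent.SLPQ

open Polynomial

theorem LG_pos (D K k : ℕ) : 1 ≤ LG D K k := by rw [LG]; omega

/-- Approximation, induction. -/
theorem approxD {D K k S : ℕ} (hD : 1 ≤ D) {B η : ℝ} (hB : B = 2 ^ 2 ^ K)
    (hDB : 1024 * (D:ℝ) ≤ B) (hDD : (D:ℝ) ^ D ≤ B) (hBS : BR D (S + SX D) ≤ B)
    (hη : η = B ^ 2 * (2 ^ 2 ^ k)⁻¹) (hsm : (B ^ (4 * D + 10)) ^ (S + 1) * η ≤ 1)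
    {l : List ℝ} (hl : Al D True l) (hS : l.length ≤ S) :
    ∃ l', Rt False l' ∧ (0:ℝ) ∈ l' ∧ l'.length ≤ 1 + l.length * LG D K k ∧
      ∀ a, (a = 1 ∨ a ∈ l) → ∃ b, (b = 1 ∨ b ∈ l') ∧
        |a - b| ≤ (B ^ (4 * D + 10)) ^ l.length * η := by
  have hDR : (1:ℝ) ≤ D := by exact_mod_cast hD
  have hB16 : 1024 ≤ B := by linarith
  have hB1 : 1 ≤ B := by linarith
  have hB0 : 0 < B := by linarith
  have hη0 : 0 ≤ η := by rw [hη]; positivity
  set G : ℝ := B ^ (4 * D + 10) with hG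
  have hG1 : 1 ≤ G := one_le_pow₀ hB1
  have hG4 : B ^ 4 ≤ G := pow_le_pow_right₀ hB1 (by omega)
  have hbd : ∀ {l : List ℝ}, Al D True l → l.length ≤ S → ∀ {a : ℝ}, (a = 1 ∨ a ∈ l) →
      |a| ≤ B ∧ (a ≠ 0 → B⁻¹ ≤ |a|) := by
    intro l' hl' hlen a ha
    have h1 := (BR_mono D (show l'.length ≤ S + SX D by omega)).trans hBS
    have h2 := BR_ge D l'.length
    refine ⟨(hl'.bds ha).1.trans h1, fun h => (inv_anti₀ (by linarith) h1).trans ((hl'.bds ha).2 h)⟩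
  -- the error before the next gate
  have hnum : ∀ m, m + 1 ≤ S → 0 ≤ G ^ m * η ∧ η ≤ G ^ m * η ∧ G * (G ^ m * η) ≤ 1 ∧
      G ^ (m + 1) * η = G * (G ^ m * η) := by
    intro m hm
    have e1 : (1:ℝ) ≤ G ^ m := one_le_pow₀ hG1
    have e2 : G ^ (m + 1) ≤ G ^ (S + 1) := pow_le_pow_right₀ hG1 (by omega)
    have e3 : G ^ (m + 1) * η = G * (G ^ m * η) := by rw [pow_succ]; ring
    refine ⟨by positivity, by nlinarith, ?_, e3⟩
    rw [← e3]
    exact (mul_le_mul_of_nonneg_right e2 hη0).trans hsm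
  induction hl with
  | nil =>
    refine ⟨[Op.sub.app 1 1], .op .sub .nil (Or.inl rfl) (Or.inl rfl), by simp [Op.app], by simp,
      fun a ha => ⟨1, Or.inl rfl, ?_⟩⟩
    have : a = 1 := by simpa using ha
    rw [this]; simpa using hη0
  | @op l o a b hl ha hb ih =>
    rw [List.length_cons] at hS
    obtain ⟨l', h1, h0, h2, h3⟩ := ih (by omega)
    obtain ⟨n1, n2, n3, n4⟩ := hnum l.length hS
    set δ := G ^ l.length * η with hδ
    obtain ⟨a', ha', hda⟩ := h3 a ha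
    obtain ⟨b', hb', hdb⟩ := h3 b hb
    have hA := (hbd hl (by omega) ha).1
    have hBb := (hbd hl (by omega) hb).1
    have hδ1 : δ ≤ 1 := by nlinarith
    have hb2 : |b'| ≤ 2 * B := by
      have : |b'| ≤ |b| + |b - b'| := by
        have := abs_sub_abs_le_abs_sub b' b
        rw [abs_sub_comm b' b] at this
        linarith
      linarith
    have hB4 : 4 * B ≤ G := by
      refine le_trans ?_ hG4
      have e1 : (4:ℝ) ≤ B ^ 3 := by
        calc (4:ℝ) ≤ B := by linarith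
          _ ≤ B ^ 3 := le_self_pow₀ hB1 (by norm_num)
      calc 4 * B ≤ B ^ 3 * B := by gcongr
        _ = B ^ 4 := by ring
    refine ⟨o.app a' b' :: l', .op o h1 ha' hb', List.mem_cons_of_mem _ h0, ?_, ?_⟩
    · have := LG_pos D K k
      rw [List.length_cons, List.length_cons, add_mul l.length 1, one_mul]; omega
    · intro c hc
      rw [List.length_cons, n4]
      rcases mem1_cons hc with hc | rfl
      · obtain ⟨c', hc', hdc⟩ := h3 c hc
        exact ⟨c', mem1_of hc' (by intro a h; simp [h]), hdc.trans (by nlinarith)⟩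
      · refine ⟨_, Or.inr (List.mem_cons_self), ?_⟩
        have := op_lip o (M := 2 * B) (by linarith) (by linarith) hb2 hda hdb
        refine this.trans ?_
        nlinarith
  | @div l a b _ hl ha hb h00 ih =>
    rw [List.length_cons] at hS
    obtain ⟨l', h1, h0, h2, h3⟩ := ih (by omega)
    obtain ⟨n1, n2, n3, n4⟩ := hnum l.length hS
    set δ := G ^ l.length * η with hδ
    obtain ⟨a', ha', hda⟩ := h3 a ha
    obtain ⟨b', hb', hdb⟩ := h3 b hb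
    have hA := (hbd hl (by omega) ha).1
    have hBb := (hbd hl (by omega) hb).1
    have hBl := (hbd hl (by omega) hb).2 h00
    have hδ1 : δ ≤ (2 * B)⁻¹ := by
      rw [← one_div, le_div_iff₀ (by positivity)]
      have e1 : 2 * B ≤ G := by
        refine le_trans ?_ hG4
        have e1 : (2:ℝ) ≤ B ^ 3 := by
          calc (2:ℝ) ≤ B := by linarith
            _ ≤ B ^ 3 := le_self_pow₀ hB1 (by norm_num)
        calc 2 * B ≤ B ^ 3 * B := by gcongr
          _ = B ^ 4 := by ring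
      calc δ * (2 * B) ≤ δ * G := by gcongr
        _ = G * δ := by ring
        _ ≤ 1 := n3
    obtain ⟨q1, q2⟩ := quot_close (U := B) (e := δ) hB0 hA hBb hda hdb hBl hδ1
    refine ⟨a' / b' :: l', .div h1 ha' hb' q1, List.mem_cons_of_mem _ h0, ?_, ?_⟩
    · have := LG_pos D K k
      rw [List.length_cons, List.length_cons, add_mul l.length 1, one_mul]; omega
    · intro c hc
      rw [List.length_cons, n4]
      rcases mem1_cons hc with hc | rfl
      · obtain ⟨c', hc', hdc⟩ := h3 c hc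
        exact ⟨c', mem1_of hc' (by intro a h; simp [h]), hdc.trans (by nlinarith)⟩
      · refine ⟨_, Or.inr (List.mem_cons_self), q2.trans ?_⟩
        calc 4 * B * δ * B ^ 2 ≤ B * B * δ * B ^ 2 := by gcongr; linarith
          _ = B ^ 4 * δ := by ring
          _ ≤ G * δ := by gcongr
  | @root l θ p hl hm hd hp h ih =>
    rw [List.length_cons] at hS
    obtain ⟨l', h1, h0, h2, h3⟩ := ih (by omega)
    obtain ⟨n1, n2, n3, n4⟩ := hnum l.length hS
    set δ := G ^ l.length * η with hδ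
    have hb := bdd_of hl (show l.length ≤ S by omega) hd hp hBS
    obtain ⟨l'', x1, y, y1, y2⟩ := gate hD hB hDB hDD (by rw [← hη]; exact n2) n3 hb hd hm.ne_zero h
      h1 h0 (fun n => h3 _ (hp n))
    refine ⟨l'', x1.1, x1.2.2 0 h0, ?_, ?_⟩
    · have := x1.2.1
      rw [List.length_cons, add_mul l.length 1, one_mul]; omega
    · intro c hc
      rw [List.length_cons, n4]
      rcases mem1_cons hc with hc | rfl
      · obtain ⟨c', hc', hdc⟩ := h3 c hc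
        exact ⟨c', x1.mem hc', hdc.trans (by nlinarith)⟩
      · refine ⟨y, y1, y2.trans ?_⟩
        exact mul_le_mul_of_nonneg_right (pow_le_pow_right₀ hB1 (by omega)) n1

/-- The exponent of the bound. -/
def KT (D S : ℕ) : ℕ := KB D (S + SX D) + 2 * D + 4

/-- The number of iterations. -/
def KI (D S m : ℕ) : ℕ := KT D S + D + S + m + 6

theorem base_ge (D S : ℕ) : 1024 * (D:ℝ) ≤ 2 ^ 2 ^ KT D S ∧ (D:ℝ) ^ D ≤ 2 ^ 2 ^ KT D S ∧
    BR D (S + SX D) ≤ 2 ^ 2 ^ KT D S := by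
  have h1 : D < 2 ^ D := Nat.lt_two_pow_self
  have h2 : (D:ℝ) ≤ 2 ^ D := by exact_mod_cast h1.le
  have h3 : 2 ^ (2 * D + 4) ≤ 2 ^ KT D S := Nat.pow_le_pow_right (by norm_num) (by rw [KT]; omega)
  have h4 : 2 ^ (2 * D + 4) = 16 * (2 ^ D * 2 ^ D) := by rw [two_mul, pow_add, pow_add]; ring
  refine ⟨?_, ?_, ?_⟩
  · calc 1024 * (D:ℝ) ≤ 2 ^ 10 * 2 ^ D := by norm_num; exact h2
      _ = 2 ^ (10 + D) := by rw [pow_add]
      _ ≤ 2 ^ 2 ^ KT D S := by
          refine pow_le_pow_right₀ (by norm_num) (le_trans ?_ h3)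
          rw [h4]
          nlinarith
  · calc (D:ℝ) ^ D ≤ (2 ^ D) ^ D := pow_le_pow_left₀ (by positivity) h2 _
      _ = 2 ^ (D * D) := by rw [← pow_mul]
      _ ≤ 2 ^ 2 ^ KT D S := by
          refine pow_le_pow_right₀ (by norm_num) (le_trans ?_ h3)
          rw [h4]
          have := Nat.mul_le_mul h1.le h1.le
          omega
  · rw [BR]
    exact pow_le_pow_right₀ (by norm_num) (Nat.pow_le_pow_right (by norm_num) (by rw [KT]; omega))

theorem sm_bound (D S m : ℕ) : (((2:ℝ) ^ 2 ^ KT D S) ^ (4 * D + 10)) ^ (S + 1) *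
    ((2 ^ 2 ^ KT D S) ^ 2 * (2 ^ 2 ^ KI D S m)⁻¹) ≤ (2 ^ 2 ^ m)⁻¹ := by
  set K := KT D S with hK
  have e1 : (((2:ℝ) ^ 2 ^ K) ^ (4 * D + 10)) ^ (S + 1) * (2 ^ 2 ^ K) ^ 2 * 2 ^ 2 ^ m =
      2 ^ (2 ^ K * ((4 * D + 10) * (S + 1) + 2) + 2 ^ m) := by
    have h : 2 ^ K * ((4 * D + 10) * (S + 1) + 2) + 2 ^ m =
        2 ^ K * ((4 * D + 10) * (S + 1)) + 2 ^ K * 2 + 2 ^ m := by ring
    rw [h, ← pow_mul, ← pow_mul, ← pow_mul, ← pow_add, ← pow_add]
  have e2 : 2 ^ K * ((4 * D + 10) * (S + 1) + 2) + 2 ^ m ≤ 2 ^ KI D S m := by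
    have f1 : D < 2 ^ D := Nat.lt_two_pow_self
    have f2 : S < 2 ^ S := Nat.lt_two_pow_self
    have f3 : (4 * D + 10) * (S + 1) ≤ (16 * 2 ^ D) * 2 ^ S := Nat.mul_le_mul (by omega) (by omega)
    have f4 : 1 ≤ 2 ^ D * 2 ^ S := Nat.one_le_iff_ne_zero.2 (by positivity)
    have f5 : (4 * D + 10) * (S + 1) + 2 ≤ 32 * (2 ^ D * 2 ^ S) := by
      have : (16 * 2 ^ D) * 2 ^ S = 16 * (2 ^ D * 2 ^ S) := by ring
      omega
    have f6 : 2 ^ KI D S m = 2 * (2 ^ K * (32 * (2 ^ D * 2 ^ S))) * 2 ^ m := by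
      rw [KI, ← hK, pow_add, pow_add, pow_add, pow_add]; ring
    have f7 := Nat.mul_le_mul_left (2 ^ K) f5
    have f8 : 1 ≤ 2 ^ m := Nat.one_le_two_pow
    have f9 : 1 ≤ 2 ^ K * (32 * (2 ^ D * 2 ^ S)) := Nat.one_le_iff_ne_zero.2 (by positivity)
    rw [f6]
    generalize 2 ^ K * (32 * (2 ^ D * 2 ^ S)) = X at *
    generalize 2 ^ m = Y at *
    generalize 2 ^ K * ((4 * D + 10) * (S + 1) + 2) = Z at *
    nlinarith
  have e3 : (2:ℝ) ^ (2 ^ K * ((4 * D + 10) * (S + 1) + 2) + 2 ^ m) ≤ 2 ^ 2 ^ KI D S m :=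
    pow_le_pow_right₀ (by norm_num) e2
  rw [← e1] at e3
  have p1 : (0:ℝ) < 2 ^ 2 ^ m := by positivity
  have p2 : (0:ℝ) < 2 ^ 2 ^ KI D S m := by positivity
  rw [← one_div (2 ^ 2 ^ m), le_div_iff₀ p1, ← mul_assoc, mul_assoc, mul_comm (2 ^ 2 ^ KI D S m)⁻¹,
    ← mul_assoc, ← div_eq_mul_inv, div_le_one p2]
  exact e3

/-- **Approximation.** -/
theorem approxD' {D : ℕ} (hD : 1 ≤ D) {l : List ℝ} (hl : Al D True l) {S : ℕ}
    (hS : l.length ≤ S) (m : ℕ) :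
    ∃ l', Rt False l' ∧ l'.length ≤ 1 + S * LG D (KT D S) (KI D S m) ∧
      ∀ a, (a = 1 ∨ a ∈ l) → ∃ b, (b = 1 ∨ b ∈ l') ∧ |a - b| ≤ ((2:ℝ) ^ 2 ^ m)⁻¹ := by
  obtain ⟨b1, b2, b3⟩ := base_ge D S
  have hsm := sm_bound D S m
  have hone : ((2:ℝ) ^ 2 ^ m)⁻¹ ≤ 1 := inv_le_one_of_one_le₀ (one_le_pow₀ (by norm_num))
  obtain ⟨l', h1, -, h2, h3⟩ := approxD hD rfl b1 b2 b3 rfl (hsm.trans hone) hl hS
  refine ⟨l', h1, h2.trans (Nat.add_le_add_left (Nat.mul_le_mul_right _ hS) _), fun a ha => ?_⟩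
  obtain ⟨b, hb, hd⟩ := h3 a ha
  refine ⟨b, hb, hd.trans (le_trans ?_ hsm)⟩
  have h5 : (1:ℝ) ≤ (2 ^ 2 ^ KT D S) ^ (4 * D + 10) := one_le_pow₀ (one_le_pow₀ (by norm_num))
  refine mul_le_mul_of_nonneg_right (pow_le_pow_right₀ h5 (by omega)) (by positivity)

end Pool.Agent.SLPQ
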