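import Pool.Agent.Lib_helper53.SLPD.Gate

/-!
# Bounds for the polynomials of a computation
-/

namespace Pool.Agent.SLPQ

open Polynomial

theorem ext_div_al {D : ℕ} {l : List ℝ} (hl : Al D True l) {a b : ℝ} (ha : a = 1 ∨ a ∈ l)
    (hb : b = 1 ∨ b ∈ l) (h0 : b ≠ 0) : ∃ l', Xt (Al D True) l 1 l' ∧ (a / b = 1 ∨ a / b ∈ l') :=
  ⟨a / b :: l, ⟨.div trivial hl ha hb h0, by simp, fun a ha => List.mem_cons_of_mem _ ha⟩,
    Or.inr List.mem_cons_self⟩

/-- Roots of polynomials which are not monic. -/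
theorem ext_root {D : ℕ} {l : List ℝ} (hl : Al D True l) (h0 : (0:ℝ) ∈ l) {g : ℝ[X]}
    (hg : g ≠ 0) (hd : g.natDegree ≤ D) (hc : ∀ n, g.coeff n = 1 ∨ g.coeff n ∈ l) {z : ℝ}
    (hz : g.eval z = 0) : ∃ l', Xt (Al D True) l (D + 2) l' ∧ (z = 1 ∨ z ∈ l') := by
  have hlc : g.leadingCoeff ≠ 0 := leadingCoeff_ne_zero.2 hg
  obtain ⟨l1, x1, y1⟩ := ext_family hl 1 (fun n => g.coeff n / g.leadingCoeff) (D + 1) (by
    intro j _ l₁ hl₁ hsub
    exact ext_div_al hl₁ (mem1_of (hc j) hsub) (mem1_of (hc _) hsub) hlc)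
  have hroot : Al D True (z :: l1) := by
    refine .root (g * C g.leadingCoeff⁻¹) x1.1 (monic_mul_leadingCoeff_inv hg) ?_ ?_ ?_
    · rw [natDegree_mul_leadingCoeff_inv g hg]; exact hd
    · intro n
      rw [coeff_mul_C, ← div_eq_mul_inv]
      rcases Nat.lt_or_ge n (D + 1) with h | h
      · exact y1 n h
      · rw [Polynomial.coeff_eq_zero_of_natDegree_lt (by omega), zero_div]
        exact Or.inr (x1.2.2 0 h0)
    · rw [eval_mul, hz, zero_mul]
  refine ⟨_, ⟨hroot, ?_, fun a ha => List.mem_cons_of_mem _ (x1.2.2 a ha)⟩,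
    Or.inr List.mem_cons_self⟩
  have := x1.2.1
  rw [List.length_cons]; omega

/-- The number of further steps. -/
def SX (D : ℕ) : ℕ := 1 + D * (2 * D) + 2 * (D + 2) + 1 + 3 * (D + 1)

theorem bdd_of {D S : ℕ} {l : List ℝ} (hl : Al D True l) (hS : l.length ≤ S) {p : ℝ[X]}
    (hd : p.natDegree ≤ D) (hp : ∀ n, p.coeff n = 1 ∨ p.coeff n ∈ l) {B : ℝ}
    (hB : BR D (S + SX D) ≤ B) : Bdd p B := by
  have hP := Al.cl D True
  have hl0 : Al D True ((0:ℝ) :: l) := by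
    have : Al D True (Op.sub.app 1 1 :: l) := .op .sub hl (Or.inl rfl) (Or.inl rfl)
    simpa [Op.app] using this
  obtain ⟨l1, x1, y1⟩ := ext_ders hP hl0 (by simp) p hd
    (fun n => mem1_of (hp n) (by intro a h; simp [h])) D
  have h01 : (0:ℝ) ∈ l1 := x1.2.2 0 (by simp)
  have hlen1 : l1.length ≤ S + 1 + D * (2 * D) := by
    have := x1.2.1
    rw [List.length_cons] at this
    omega
  have hc : ∀ j n, (derivative^[j] p).coeff n = 1 ∨ (derivative^[j] p).coeff n ∈ l1 := by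
    intro j n
    rcases Nat.lt_or_ge D j with h | h
    · rw [Polynomial.iterate_derivative_eq_zero (by omega), coeff_zero]
      exact Or.inr h01
    · exact y1 j h n
  have hdd : ∀ j, (derivative^[j] p).natDegree ≤ D := fun j => (natDegree_iter_le p j).trans hd
  have hbd : ∀ {l' : List ℝ}, Al D True l' → l'.length ≤ S + SX D → ∀ {a : ℝ}, (a = 1 ∨ a ∈ l') →
      |a| ≤ B ∧ (a ≠ 0 → B⁻¹ ≤ |a|) := by
    intro l' hl' hlen a ha
    have h1 := (BR_mono D hlen).trans hB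
    have h2 := BR_ge D l'.length
    refine ⟨(hl'.bds ha).1.trans h1, fun h => (inv_anti₀ (by linarith) h1).trans ((hl'.bds ha).2 h)⟩
  refine ⟨fun j n => (hbd x1.1 (by rw [SX]; omega) (hc j n)).1, ?_, ?_, ?_⟩
  · intro j hj z hz
    obtain ⟨l2, x2, y2⟩ := ext_root x1.1 h01 hj (hdd j) (hc j) hz
    have := x2.2.1
    exact (hbd x2.1 (by rw [SX]; omega) y2).1
  · intro i j hi hj z w hz hw hzw
    obtain ⟨l2, x2, y2⟩ := ext_root x1.1 h01 hi (hdd i) (hc i) hz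
    obtain ⟨l3, x3, y3⟩ := ext_root x2.1 (x2.2.2 0 h01) hj (hdd j) (fun n => x2.mem (hc j n)) hw
    obtain ⟨l4, x4, y4⟩ := ext_sub hP x3.1 (x3.mem y2) y3
    have := x2.2.1
    have := x3.2.1
    have := x4.2.1
    exact (hbd x4.1 (by rw [SX]; omega) y4).2 (sub_ne_zero.2 hzw)
  · intro i j hi z hz hv
    obtain ⟨l2, x2, y2⟩ := ext_root x1.1 h01 hi (hdd i) (hc i) hz
    obtain ⟨l3, x3, y3⟩ := ext_eval hP x2.1 (x2.2.2 0 h01) (derivative^[j] p) (hdd j)
      (fun n => x2.mem (hc j n)) y2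
    have := x2.2.1
    have := x3.2.1
    exact (hbd x3.1 (by rw [SX]; omega) y3).2 hv

end Pool.Agent.SLPQ
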