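import Pool.Agent.Lib_helper50.SLPQ.Measures

/-!
# Computations with real roots of polynomials; triangular systems
-/

namespace Pool.Agent.SLPQ

open Polynomial

/-- Computations with real numbers, from the number `1`, the last number first: `+`, `-`, `·` of
earlier numbers; if `q` holds, division by a nonzero earlier number; and any real root of a monic
polynomial of degree at most `D` whose coefficients are earlier numbers. -/
inductive Al (D : ℕ) (q : Prop) : List ℝ → Prop
  | nil : Al D q []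
  | op {l : List ℝ} (o : Op) {a b : ℝ} (hl : Al D q l) (ha : a = 1 ∨ a ∈ l) (hb : b = 1 ∨ b ∈ l) :
      Al D q (o.app a b :: l)
  | div {l : List ℝ} {a b : ℝ} (hq : q) (hl : Al D q l) (ha : a = 1 ∨ a ∈ l)
      (hb : b = 1 ∨ b ∈ l) (h0 : b ≠ 0) : Al D q (a / b :: l)
  | root {l : List ℝ} {θ : ℝ} (p : ℝ[X]) (hl : Al D q l) (hm : p.Monic) (hd : p.natDegree ≤ D)
      (hp : ∀ n, p.coeff n = 1 ∨ p.coeff n ∈ l) (h : p.eval θ = 0) : Al D q (θ :: l)

/-- As `RealWitness`, but if `F (x, z) > 0` has a solution `z` then it has one whose coordinates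
are computed (together) in `s` steps from `1` with `+`, `-`, `·`, `/` and real roots of monic
polynomials of degree at most `s`. -/
def AlgebraicWitness (n : ℕ) (f : List Bool → Prop) (s : ℕ) : Prop :=
  ∃ k ≤ s, ∃ F : SLP, F.length ≤ s ∧ F.Valid (1 + (n + k)) ∧ ∀ x : List Bool, x.length = n →
    (¬ f x → ∀ z : List ℝ, z.length = k → F.val ((1 : ℝ) :: (x.map bit ++ z)) ≤ 0) ∧
    (f x → ∃ z : List ℝ, z.length = k ∧
      (∃ l : List ℝ, Al s True l ∧ l.length ≤ s ∧ ∀ a ∈ z, a = 1 ∨ a ∈ l) ∧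
      0 < F.val ((1 : ℝ) :: (x.map bit ++ z)))

/-- Triangular systems: `f x` iff there is `z ∈ ℝ^k`, `k ≤ s`, with `F (x, z) > 0` and, for all
`i < k`, `z_i ^ (d i) + ∑ j < d i, q_(i,j) (x, z_0, …, z_(i-1)) z_i ^ j = 0`, where `d i ≤ s` and the
`q_(i,j)` and `F` are straight line programs with at most `s` instructions. -/
def TriangularWitness (n : ℕ) (f : List Bool → Prop) (s : ℕ) : Prop :=
  ∃ k ≤ s, ∃ (d : ℕ → ℕ) (q : ℕ → ℕ → SLP),
    (∀ i < k, d i ≤ s ∧ ∀ j < d i, (q i j).length ≤ s ∧ (q i j).Valid (1 + (n + i))) ∧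
    ∃ F : SLP, F.length ≤ s ∧ F.Valid (1 + (n + k)) ∧ ∀ x : List Bool, x.length = n →
      (f x ↔ ∃ z : List ℝ, z.length = k ∧
        (∀ i < k, z.getD i 0 ^ d i + ∑ j ∈ Finset.range (d i),
          (q i j).val ((1 : ℝ) :: (x.map bit ++ z.take i)) * z.getD i 0 ^ j = 0) ∧
        0 < F.val ((1 : ℝ) :: (x.map bit ++ z)))

/-- The six measures. -/
def measures6 : List (ℕ → (List Bool → Prop) → ℕ → Prop) :=
  [Nondet, OneQuery, RobustWitness, ComputedWitness False, AlgebraicWitness, TriangularWitness]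

end Pool.Agent.SLPQ
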