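import Pool.Agent.Lib_helper53.SLPD.Sep
import Pool.Agent.Lib_helper53.SLPQ.App

/-!
# Extensions of computations
-/

namespace Pool.Agent.SLPQ

open Polynomial

/-- Computations which can be extended by the three operations. -/
def Cl (P : List ℝ → Prop) : Prop :=
  ∀ (l : List ℝ) (o : Op) (a b : ℝ), P l → (a = 1 ∨ a ∈ l) → (b = 1 ∨ b ∈ l) → P (o.app a b :: l)

theorem Al.cl (D : ℕ) (q : Prop) : Cl (Al D q) := fun _ o _ _ h ha hb => .op o h ha hb

theorem Rt.cl (q : Prop) : Cl (Rt q) := fun _ o _ _ h ha hb => .op o h ha hb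

/-- `l'` extends `l` by at most `n` numbers. -/
def Xt (P : List ℝ → Prop) (l : List ℝ) (n : ℕ) (l' : List ℝ) : Prop :=
  P l' ∧ l'.length ≤ l.length + n ∧ ∀ a ∈ l, a ∈ l'

variable {P : List ℝ → Prop} {l l' l'' : List ℝ} {n m : ℕ}

theorem Xt.refl (h : P l) (n : ℕ) : Xt P l n l := ⟨h, by omega, fun _ h => h⟩

theorem Xt.trans (h : Xt P l n l') (h' : Xt P l' m l'') : Xt P l (n + m) l'' :=
  ⟨h'.1, by have := h.2.1; have := h'.2.1; omega, fun a ha => h'.2.2 a (h.2.2 a ha)⟩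

theorem Xt.le (h : Xt P l n l') (hnm : n ≤ m) : Xt P l m l' :=
  ⟨h.1, by have := h.2.1; omega, h.2.2⟩

theorem Xt.mem (h : Xt P l n l') {a : ℝ} (ha : a = 1 ∨ a ∈ l) : a = 1 ∨ a ∈ l' :=
  mem1_of ha h.2.2

theorem ext_op (hP : Cl P) (hl : P l) (o : Op) {a b : ℝ} (ha : a = 1 ∨ a ∈ l)
    (hb : b = 1 ∨ b ∈ l) : ∃ l', Xt P l 1 l' ∧ (o.app a b = 1 ∨ o.app a b ∈ l') :=
  ⟨o.app a b :: l, ⟨hP l o a b hl ha hb, by simp, fun a ha => List.mem_cons_of_mem _ ha⟩,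
    Or.inr List.mem_cons_self⟩

theorem ext_add (hP : Cl P) (hl : P l) {a b : ℝ} (ha : a = 1 ∨ a ∈ l)
    (hb : b = 1 ∨ b ∈ l) : ∃ l', Xt P l 1 l' ∧ (a + b = 1 ∨ a + b ∈ l') := ext_op hP hl .add ha hb

theorem ext_sub (hP : Cl P) (hl : P l) {a b : ℝ} (ha : a = 1 ∨ a ∈ l)
    (hb : b = 1 ∨ b ∈ l) : ∃ l', Xt P l 1 l' ∧ (a - b = 1 ∨ a - b ∈ l') := ext_op hP hl .sub ha hb

theorem ext_mul (hP : Cl P) (hl : P l) {a b : ℝ} (ha : a = 1 ∨ a ∈ l)
    (hb : b = 1 ∨ b ∈ l) : ∃ l', Xt P l 1 l' ∧ (a * b = 1 ∨ a * b ∈ l') := ext_op hP hl .mul ha hb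

/-- A family of numbers, each of cost `c`. -/
theorem ext_family (hl : P l) (c : ℕ) (f : ℕ → ℝ) (m : ℕ)
    (h : ∀ j < m, ∀ l₁, P l₁ → (∀ a ∈ l, a ∈ l₁) → ∃ l₂, Xt P l₁ c l₂ ∧ (f j = 1 ∨ f j ∈ l₂)) :
    ∃ l', Xt P l (m * c) l' ∧ ∀ j < m, f j = 1 ∨ f j ∈ l' := by
  induction m with
  | zero => exact ⟨l, Xt.refl hl _, by simp⟩
  | succ m ih =>
    obtain ⟨l1, h1, h2⟩ := ih fun j hj => h j (by omega)
    obtain ⟨l2, h3, h4⟩ := h m (by omega) l1 h1.1 h1.2.2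
    refine ⟨l2, (h1.trans h3).le (by rw [add_mul m 1, one_mul]), fun j hj => ?_⟩
    rcases Nat.lt_succ_iff_lt_or_eq.1 hj with hj | rfl
    · exact h3.mem (h2 j hj)
    · exact h4

theorem ext_nat (hP : Cl P) (hl : P l) (h0 : (0:ℝ) ∈ l) (j : ℕ) : ∀ n : ℕ, n < 2 ^ j → ∃ l',
    Xt P l (2 * j) l' ∧ ((n:ℝ) = 1 ∨ (n:ℝ) ∈ l') := by
  induction j with
  | zero =>
    intro n hn
    have : n = 0 := by simpa using hn
    subst this
    exact ⟨l, Xt.refl hl _, Or.inr (by simpa using h0)⟩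
  | succ j ih =>
    intro n hn
    rw [pow_succ] at hn
    obtain ⟨l1, h1, h2⟩ := ih (n / 2) (by omega)
    obtain ⟨l2, h3, h4⟩ := ext_add hP h1.1 h2 h2
    rcases Nat.mod_two_eq_zero_or_one n with h | h
    · refine ⟨l2, (h1.trans h3).le (by omega), ?_⟩
      have : (n:ℝ) = ((n / 2 : ℕ) : ℝ) + ((n / 2 : ℕ) : ℝ) := by
        rw [← Nat.cast_add]; congr 1; omega
      rw [this]; exact h4
    · obtain ⟨l3, h5, h6⟩ := ext_add hP h3.1 h4 (Or.inl rfl)
      refine ⟨l3, ((h1.trans h3).trans h5).le (by omega), ?_⟩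
      have : (n:ℝ) = ((n / 2 : ℕ) : ℝ) + ((n / 2 : ℕ) : ℝ) + 1 := by
        rw [← Nat.cast_add, ← Nat.cast_add_one]; congr 1; omega
      rw [this]; exact h6

theorem ext_pows (hP : Cl P) (hl : P l) {x : ℝ} (hx : x = 1 ∨ x ∈ l) (m : ℕ) :
    ∃ l', Xt P l m l' ∧ ∀ j ≤ m, x ^ j = 1 ∨ x ^ j ∈ l' := by
  induction m with
  | zero => exact ⟨l, Xt.refl hl _, fun j hj => Or.inl (by rw [Nat.le_zero.1 hj, pow_zero])⟩
  | succ m ih =>
    obtain ⟨l1, h1, h2⟩ := ih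
    obtain ⟨l2, h3, h4⟩ := ext_mul hP h1.1 (h2 m le_rfl) (h1.mem hx)
    refine ⟨l2, h1.trans h3, fun j hj => ?_⟩
    rcases Nat.lt_or_eq_of_le hj with hj | rfl
    · exact h3.mem (h2 j (by omega))
    · rw [pow_succ]; exact h4

/-- The value of a polynomial. -/
theorem ext_eval (hP : Cl P) (hl : P l) (h0 : (0:ℝ) ∈ l) (p : ℝ[X]) {d : ℕ}
    (hd : p.natDegree ≤ d) (hp : ∀ n, p.coeff n = 1 ∨ p.coeff n ∈ l) {x : ℝ}
    (hx : x = 1 ∨ x ∈ l) : ∃ l', Xt P l (3 * (d + 1)) l' ∧ (p.eval x = 1 ∨ p.eval x ∈ l') := by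
  have key : ∀ m, ∃ l', Xt P l (3 * m) l' ∧ (x ^ m = 1 ∨ x ^ m ∈ l') ∧
      (∑ i ∈ Finset.range m, p.coeff i * x ^ i = 1 ∨
        ∑ i ∈ Finset.range m, p.coeff i * x ^ i ∈ l') := by
    intro m
    induction m with
    | zero => exact ⟨l, Xt.refl hl _, Or.inl (pow_zero _), Or.inr (by simpa using h0)⟩
    | succ m ih =>
      obtain ⟨l1, h1, h2, h3⟩ := ih
      obtain ⟨l2, h4, h5⟩ := ext_mul hP h1.1 h2 (h1.mem hx)
      obtain ⟨l3, h6, h7⟩ := ext_mul hP h4.1 (h4.mem (h1.mem (hp m))) (h4.mem h2)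
      obtain ⟨l4, h8, h9⟩ := ext_add hP h6.1 (h6.mem (h4.mem h3)) h7
      refine ⟨l4, (((h1.trans h4).trans h6).trans h8).le (by omega), ?_, ?_⟩
      · rw [pow_succ]; exact h8.mem (h6.mem h5)
      · rw [Finset.sum_range_succ]; exact h9
  obtain ⟨l', h1, -, h2⟩ := key (d + 1)
  refine ⟨l', h1, ?_⟩
  rw [Polynomial.eval_eq_sum_range' (Nat.lt_succ_of_le hd)]
  exact h2

/-- The coefficients of the derivative. -/
theorem ext_der (hP : Cl P) (hl : P l) (h0 : (0:ℝ) ∈ l) (p : ℝ[X]) {d : ℕ}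
    (hd : p.natDegree ≤ d) (hp : ∀ n, p.coeff n = 1 ∨ p.coeff n ∈ l) :
    ∃ l', Xt P l (2 * d) l' ∧ ∀ n, (derivative p).coeff n = 1 ∨ (derivative p).coeff n ∈ l' := by
  have key : ∀ m, ∃ l', Xt P l (2 * m) l' ∧ ((m:ℝ) = 1 ∨ (m:ℝ) ∈ l') ∧
      ∀ n < m, (derivative p).coeff n = 1 ∨ (derivative p).coeff n ∈ l' := by
    intro m
    induction m with
    | zero => exact ⟨l, Xt.refl hl _, Or.inr (by simpa using h0), by simp⟩
    | succ m ih =>
      obtain ⟨l1, h1, h2, h3⟩ := ih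
      obtain ⟨l2, h4, h5⟩ := ext_add hP h1.1 h2 (Or.inl rfl)
      obtain ⟨l3, h6, h7⟩ := ext_mul hP h4.1 (h4.mem (h1.mem (hp (m + 1)))) h5
      refine ⟨l3, ((h1.trans h4).trans h6).le (by omega), ?_, fun n hn => ?_⟩
      · push_cast; exact h6.mem h5
      · rcases Nat.lt_succ_iff_lt_or_eq.1 hn with hn | rfl
        · exact h6.mem (h4.mem (h3 n hn))
        · rw [Polynomial.coeff_derivative]; exact h7
  obtain ⟨l', h1, -, h2⟩ := key d
  refine ⟨l', h1, fun n => ?_⟩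
  rcases lt_or_ge n d with h | h
  · exact h2 n h
  · have : (derivative p).coeff n = 0 := by
      rw [Polynomial.coeff_derivative, Polynomial.coeff_eq_zero_of_natDegree_lt (by omega),
        zero_mul]
    rw [this]
    exact Or.inr (h1.2.2 0 h0)

theorem natDegree_iter_le (p : ℝ[X]) (k : ℕ) : (derivative^[k] p).natDegree ≤ p.natDegree := by
  refine (Polynomial.natDegree_iterate_derivative p k).trans (Nat.sub_le _ _)

/-- The coefficients of all derivatives. -/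
theorem ext_ders (hP : Cl P) (hl : P l) (h0 : (0:ℝ) ∈ l) (p : ℝ[X]) {d : ℕ}
    (hd : p.natDegree ≤ d) (hp : ∀ n, p.coeff n = 1 ∨ p.coeff n ∈ l) (K : ℕ) :
    ∃ l', Xt P l (K * (2 * d)) l' ∧ ∀ k ≤ K, ∀ n, (derivative^[k] p).coeff n = 1 ∨
      (derivative^[k] p).coeff n ∈ l' := by
  induction K with
  | zero =>
    refine ⟨l, Xt.refl hl _, fun k hk n => ?_⟩
    rw [Nat.le_zero.1 hk]
    exact hp n
  | succ K ih =>
    obtain ⟨l1, h1, h2⟩ := ih
    obtain ⟨l2, h3, h4⟩ := ext_der hP h1.1 (h1.2.2 0 h0) (derivative^[K] p)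
      ((natDegree_iter_le p K).trans hd) (h2 K le_rfl)
    refine ⟨l2, (h1.trans h3).le (by rw [add_mul K 1, one_mul]), fun k hk n => ?_⟩
    rcases Nat.lt_or_eq_of_le hk with hk | rfl
    · exact h3.mem (h2 k (by omega) n)
    · rw [Function.iterate_succ_apply']; exact h4 n

/-- Common denominators. -/
theorem common_den (hP : Cl P) (hl : P l) (c : ℕ → ℝ) (m : ℕ)
    (h : ∀ j < m, ∃ A B, (A = 1 ∨ A ∈ l) ∧ (B = 1 ∨ B ∈ l) ∧ 0 < B ∧ c j = A / B) :
    ∃ l', Xt P l (m * (m + 2)) l' ∧ ∃ Q, (Q = 1 ∨ Q ∈ l') ∧ 0 < Q ∧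
      ∀ j < m, c j * Q = 1 ∨ c j * Q ∈ l' := by
  induction m with
  | zero => exact ⟨l, Xt.refl hl _, 1, Or.inl rfl, one_pos, by simp⟩
  | succ m ih =>
    obtain ⟨l1, h1, Q, hQ, hQ0, h2⟩ := ih fun j hj => h j (by omega)
    obtain ⟨A, B, hA, hB, hB0, he⟩ := h m (by omega)
    obtain ⟨l2, h3, h4⟩ := ext_mul hP h1.1 hQ (h1.mem hB)
    obtain ⟨l3, h5, h6⟩ := ext_mul hP h3.1 (h3.mem (h1.mem hA)) (h3.mem hQ)
    obtain ⟨l4, h7, h8⟩ := ext_family h5.1 1 (fun j => c j * Q * B) m (by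
      intro j hj l₁ hl₁ hsub
      exact ext_mul hP hl₁ (mem1_of (h5.mem (h3.mem (h2 j hj))) hsub)
        (mem1_of (h5.mem (h3.mem (h1.mem hB))) hsub))
    refine ⟨l4, (((h1.trans h3).trans h5).trans h7).le ?_, Q * B, h7.mem (h5.mem h4),
      mul_pos hQ0 hB0, fun j hj => ?_⟩
    · have : (m + 1) * (m + 1 + 2) = m * (m + 2) + (2 * m + m + 3 - m) := by
        have : 2 * m + m + 3 - m = 2 * m + 3 := by omega
        rw [this]; ring
      omega
    · rcases Nat.lt_succ_iff_lt_or_eq.1 hj with hj | rfl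
      · rw [← mul_assoc]; exact h8 j hj
      · have : c j * (Q * B) = A * Q := by
          rw [he]; field_simp
        rw [this]; exact h7.mem h6

/-- Numerators and denominators of a computation with divisions. -/
theorem Al.toFree {D : ℕ} {l : List ℝ} (hl : Al D True l) : ∃ l', Al D False l' ∧ (0:ℝ) ∈ l' ∧
    l'.length ≤ 1 + l.length * (D * (D + 4) + 5) ∧
    ∀ a, (a = 1 ∨ a ∈ l) → ∃ P Q, (P = 1 ∨ P ∈ l') ∧ (Q = 1 ∨ Q ∈ l') ∧ 0 < Q ∧ a = P / Q := by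
  have hP := Al.cl D False
  induction hl with
  | nil =>
    refine ⟨[Op.sub.app 1 1], .op .sub .nil (Or.inl rfl) (Or.inl rfl), by simp [Op.app], by simp,
      fun a ha => ⟨1, 1, Or.inl rfl, Or.inl rfl, one_pos, ?_⟩⟩
    have : a = 1 := by simpa using ha
    rw [this]; norm_num
  | @op l o a b hl ha hb ih =>
    obtain ⟨l', hl', h0, hlen, ih⟩ := ih
    obtain ⟨P1, Q1, hP1, hQ1, hq1, he1⟩ := ih a ha
    obtain ⟨P2, Q2, hP2, hQ2, hq2, he2⟩ := ih b hb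
    obtain ⟨l1, x1, y1⟩ := ext_mul hP hl' hQ1 hQ2
    have key : ∃ l2, Xt (Al D False) l1 3 l2 ∧
        (o.app (P1 / Q1) (P2 / Q2) * (Q1 * Q2) = 1 ∨ o.app (P1 / Q1) (P2 / Q2) * (Q1 * Q2) ∈ l2) := by
      have := hq1.ne'
      have := hq2.ne'
      cases o with
      | mul =>
        obtain ⟨l2, x2, y2⟩ := ext_mul hP x1.1 (x1.mem hP1) (x1.mem hP2)
        refine ⟨l2, x2.le (by omega), ?_⟩
        have e : Op.mul.app (P1 / Q1) (P2 / Q2) * (Q1 * Q2) = P1 * P2 := by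
          simp only [Op.app]; field_simp
        rw [e]; exact y2
      | add =>
        obtain ⟨l2, x2, y2⟩ := ext_mul hP x1.1 (x1.mem hP1) (x1.mem hQ2)
        obtain ⟨l3, x3, y3⟩ := ext_mul hP x2.1 (x2.mem (x1.mem hP2)) (x2.mem (x1.mem hQ1))
        obtain ⟨l4, x4, y4⟩ := ext_add hP x3.1 (x3.mem y2) y3
        refine ⟨l4, ((x2.trans x3).trans x4).le (by omega), ?_⟩
        have e : Op.add.app (P1 / Q1) (P2 / Q2) * (Q1 * Q2) = P1 * Q2 + P2 * Q1 := by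
          simp only [Op.app]; field_simp
        rw [e]; exact y4
      | sub =>
        obtain ⟨l2, x2, y2⟩ := ext_mul hP x1.1 (x1.mem hP1) (x1.mem hQ2)
        obtain ⟨l3, x3, y3⟩ := ext_mul hP x2.1 (x2.mem (x1.mem hP2)) (x2.mem (x1.mem hQ1))
        obtain ⟨l4, x4, y4⟩ := ext_sub hP x3.1 (x3.mem y2) y3
        refine ⟨l4, ((x2.trans x3).trans x4).le (by omega), ?_⟩
        have e : Op.sub.app (P1 / Q1) (P2 / Q2) * (Q1 * Q2) = P1 * Q2 - P2 * Q1 := by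
          simp only [Op.app]; field_simp
        rw [e]; exact y4
    obtain ⟨l2, x2, y2⟩ := key
    have x := x1.trans x2
    refine ⟨l2, x.1, x.2.2 0 h0, ?_, ?_⟩
    · have := x.2.1
      rw [List.length_cons, add_mul l.length 1, one_mul]; omega
    · intro c hc
      rcases mem1_cons hc with hc | rfl
      · obtain ⟨P, Q, hP, hQ, h1, h2⟩ := ih c hc
        exact ⟨P, Q, x.mem hP, x.mem hQ, h1, h2⟩
      · refine ⟨_, Q1 * Q2, y2, x2.mem y1, mul_pos hq1 hq2, ?_⟩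
        rw [he1, he2, mul_div_cancel_right₀ _ (mul_pos hq1 hq2).ne']
  | @div l a b _ hl ha hb h0' ih =>
    obtain ⟨l', hl', h0, hlen, ih⟩ := ih
    obtain ⟨P1, Q1, hP1, hQ1, hq1, he1⟩ := ih a ha
    obtain ⟨P2, Q2, hP2, hQ2, hq2, he2⟩ := ih b hb
    have hP20 : P2 ≠ 0 := by rintro rfl; rw [zero_div] at he2; exact h0' he2
    obtain ⟨l1, x1, y1⟩ := ext_mul hP hl' hP2 hP2
    obtain ⟨l2, x2, y2⟩ := ext_mul hP x1.1 (x1.mem hQ1) y1
    obtain ⟨l3, x3, y3⟩ := ext_mul hP x2.1 (x2.mem (x1.mem hP1)) (x2.mem (x1.mem hQ2))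
    obtain ⟨l4, x4, y4⟩ := ext_mul hP x3.1 y3 (x3.mem (x2.mem (x1.mem hP2)))
    have x := ((x1.trans x2).trans x3).trans x4
    refine ⟨l4, x.1, x.2.2 0 h0, ?_, ?_⟩
    · have := x.2.1
      rw [List.length_cons, add_mul l.length 1, one_mul]; omega
    · intro c hc
      rcases mem1_cons hc with hc | rfl
      · obtain ⟨P, Q, hP, hQ, h1, h2⟩ := ih c hc
        exact ⟨P, Q, x.mem hP, x.mem hQ, h1, h2⟩
      · refine ⟨P1 * Q2 * P2, Q1 * (P2 * P2), y4, x4.mem (x3.mem y2),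
          mul_pos hq1 (mul_self_pos.2 hP20), ?_⟩
        rw [he1, he2]
        have := hq1.ne'
        have := hq2.ne'
        field_simp
  | @root l θ p hl hm hd hp h ih =>
    obtain ⟨l', hl', h0, hlen, ih⟩ := ih
    set N := p.natDegree with hN
    obtain ⟨l1, x1, Q, hQ, hQ0, h1⟩ := common_den hP hl' p.coeff N (fun j _ => ih _ (hp j))
    obtain ⟨l2, x2, y2⟩ := ext_pows hP x1.1 hQ N
    obtain ⟨l3, x3, y3⟩ := ext_family x2.1 1 (fun j => p.coeff j * Q * Q ^ (N - 1 - j)) N (by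
      intro j hj l₁ hl₁ hsub
      exact ext_mul hP hl₁ (mem1_of (x2.mem (h1 j hj)) hsub)
        (mem1_of (y2 (N - 1 - j) (by omega)) hsub))
    have x := (x1.trans x2).trans x3
    have hroot : Al D False (Q * θ :: l3) := by
      refine .root (scaleRoots p Q) x.1 ?_ ?_ ?_ ?_
      · exact (monic_scaleRoots_iff Q).2 hm
      · rw [natDegree_scaleRoots]; exact hd
      · intro n
        rw [coeff_scaleRoots]
        rcases lt_trichotomy n N with hn | hn | hn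
        · have e : p.coeff n * Q ^ (N - n) = p.coeff n * Q * Q ^ (N - 1 - n) := by
            rw [show N - n = (N - 1 - n) + 1 by omega, pow_succ]; ring
          rw [← hN, e]
          exact y3 n hn
        · left
          rw [← hN, hn, Nat.sub_self, pow_zero, mul_one]
          exact hm.coeff_natDegree
        · rw [Polynomial.coeff_eq_zero_of_natDegree_lt (by omega), zero_mul]
          exact Or.inr (x.2.2 0 h0)
      · have h2 := scaleRoots_eval₂_mul (p := p) (RingHom.id ℝ) (r := θ) (s := Q)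
        simp only [RingHom.id_apply] at h2
        rw [Polynomial.eval₂_id, Polynomial.eval₂_id] at h2
        rw [h2, h, mul_zero]
    refine ⟨_, hroot, List.mem_cons_of_mem _ (x.2.2 0 h0), ?_, ?_⟩
    · have := x.2.1
      have e1 : N * (N + 2) ≤ D * (D + 2) := Nat.mul_le_mul hd (by omega)
      have e2 : D * (D + 4) = D * (D + 2) + 2 * D := by ring
      rw [List.length_cons, List.length_cons, add_mul l.length 1, one_mul]
      omega
    · intro c hc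
      rcases mem1_cons hc with hc | rfl
      · obtain ⟨P, Q, hP, hQ, h1, h2⟩ := ih c hc
        exact ⟨P, Q, mem1_of (x.mem hP) (by intro a h; simp [h]),
          mem1_of (x.mem hQ) (by intro a h; simp [h]), h1, h2⟩
      · refine ⟨Q * c, Q, Or.inr (List.mem_cons_self),
          mem1_of (x3.mem (x2.mem hQ)) (by intro a h; simp [h]), hQ0, ?_⟩
        field_simp

/-- The exponent of the bound for computations of length `s`. -/
def KB (D s : ℕ) : ℕ := KS D (1 + s * (D * (D + 4) + 5)) + 1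

theorem KB_mono (D : ℕ) {s t : ℕ} (h : s ≤ t) : KB D s ≤ KB D t := by
  rw [KB, KB]
  have := Nat.mul_le_mul_right (D * (D + 4) + 5) h
  have := KS_mono D (n := 1 + s * (D * (D + 4) + 5)) (m := 1 + t * (D * (D + 4) + 5)) (by omega)
  omega

/-- The bound for computations of length `s`. -/
noncomputable def BR (D s : ℕ) : ℝ := 2 ^ 2 ^ KB D s

theorem BR_mono (D : ℕ) {s t : ℕ} (h : s ≤ t) : BR D s ≤ BR D t :=
  pow_le_pow_right₀ (by norm_num) (Nat.pow_le_pow_right (by norm_num) (KB_mono D h))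

theorem BR_ge (D s : ℕ) : 16 ≤ BR D s := by
  have : (16:ℝ) = 2 ^ 2 ^ 2 := by norm_num
  rw [this]
  refine pow_le_pow_right₀ (by norm_num) (Nat.pow_le_pow_right (by norm_num) ?_)
  rw [KB, KS]; omega

theorem Al.bds {D : ℕ} {l : List ℝ} (hl : Al D True l) {a : ℝ} (ha : a = 1 ∨ a ∈ l) :
    |a| ≤ BR D l.length ∧ (a ≠ 0 → (BR D l.length)⁻¹ ≤ |a|) := by
  obtain ⟨l', hl', -, hlen, h⟩ := hl.toFree
  obtain ⟨P, Q, hP, hQ, hQ0, he⟩ := h a ha
  set A : ℝ := 2 ^ 2 ^ KS D (1 + l.length * (D * (D + 4) + 5)) with hA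
  have hm : (2:ℝ) ^ 2 ^ KS D l'.length ≤ A :=
    pow_le_pow_right₀ (by norm_num) (Nat.pow_le_pow_right (by norm_num) (KS_mono D hlen))
  have hA0 : 0 < A := by positivity
  have hAA : A * A = BR D l.length := by
    rw [BR, KB, dexp_succ, sq]
  have hbP := (hl'.bd hP).1.trans hm
  have hbQ := (hl'.bd hQ).1.trans hm
  have hsQ := (inv_anti₀ (by positivity) hm).trans ((hl'.bd hQ).2 hQ0.ne')
  rw [abs_of_pos hQ0] at hbQ hsQ
  refine ⟨?_, fun ha0 => ?_⟩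
  · rw [he, abs_div, abs_of_pos hQ0, ← hAA]
    calc |P| / Q ≤ A / A⁻¹ := div_le_div₀ hA0.le hbP (by positivity) hsQ
      _ = A * A := by rw [div_inv_eq_mul]
  · have hP0 : P ≠ 0 := by rintro rfl; rw [zero_div] at he; exact ha0 he
    have hsP := (inv_anti₀ (by positivity) hm).trans ((hl'.bd hP).2 hP0)
    rw [he, abs_div, abs_of_pos hQ0, ← hAA]
    calc (A * A)⁻¹ = A⁻¹ / A := by rw [mul_inv, div_eq_mul_inv]
      _ ≤ |P| / Q := div_le_div₀ (abs_nonneg _) hsP hQ0 hbQ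

end Pool.Agent.SLPQ
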