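import Pool.Agent.Lib_helper53.SLPD.Appr
import Pool.Agent.Lib_helper53.SLPQ.Cmp

/-!
# Witnesses computed with real roots can be replaced by rational ones
-/

namespace Pool.Agent.SLPQ

open Polynomial

theorem Al.mono {D D' : ℕ} (h : D ≤ D') {q : Prop} {l : List ℝ} (hl : Al D q l) : Al D' q l := by
  induction hl with
  | nil => exact .nil
  | op o _ ha hb ih => exact .op o ih ha hb
  | div hq _ ha hb h0 ih => exact .div hq ih ha hb h0
  | root p _ hm hd hp h1 ih => exact .root p ih hm (hd.trans h) hp h1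

theorem Rt.toAl {D : ℕ} {l : List ℝ} (hl : Rt False l) : Al D True l := by
  induction hl with
  | nil => exact .nil
  | op o _ ha hb ih => exact .op o ih ha hb
  | div _ ha hb h0 ih => exact .div trivial ih ha hb h0
  | sqrt hq => exact hq.elim

theorem Cl.run {P : List ℝ → Prop} (hP : Cl P) (p : SLP) {l : List ℝ} (hl : P l)
    (h0 : (0:ℝ) ∈ l) (u : List ℝ) (hu : ∀ a ∈ u, a = 1 ∨ a ∈ l) :
    ∃ l', Xt P l p.length l' ∧ ∀ a ∈ SLP.run p u, a = 1 ∨ a ∈ l' := by
  induction p generalizing l u with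
  | nil => exact ⟨l, Xt.refl hl _, hu⟩
  | cons c p ih =>
    obtain ⟨o, i, j⟩ := c
    rw [SLP.run]
    obtain ⟨l1, x1, y1⟩ := ext_op hP hl o (getD_mem1 h0 hu i) (getD_mem1 h0 hu j)
    obtain ⟨l', x2, y2⟩ := ih x1.1 (x1.2.2 0 h0) (u ++ [o.app (u.getD i 0) (u.getD j 0)]) (by
      intro a ha
      rcases List.mem_append.1 ha with h | h
      · exact x1.mem (hu a h)
      · rw [List.mem_singleton] at h
        rw [h]; exact y1)
    exact ⟨l', (x1.trans x2).le (by rw [List.length_cons]; omega), y2⟩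

/-- The length of the rational computation. -/
def RF (D S : ℕ) : ℕ := 1 + S * LG D (KT D S) (KI D S (KB D S + S + 2))

/-- **Real roots are not needed.** -/
theorem root_free (F : SLP) (x : List Bool) {z : List ℝ} {D s : ℕ} (hD : 1 ≤ D) {l : List ℝ}
    (hl : Al D True l) (hls : l.length ≤ s) (hz : ∀ a ∈ z, a = 1 ∨ a ∈ l)
    (hpos : 0 < F.val ((1 : ℝ) :: (x.map bit ++ z))) :
    ∃ z' : List ℝ, z'.length = z.length ∧ Cmpd False (RF D (s + F.length + 1)) z' ∧
      0 < F.val ((1 : ℝ) :: (x.map bit ++ z')) := by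
  obtain ⟨S, hS⟩ : ∃ S, S = s + F.length + 1 := ⟨_, rfl⟩
  rw [← hS]
  have hl0 : Al D True ((0:ℝ) :: l) := by
    have : Al D True (Op.sub.app 1 1 :: l) := .op .sub hl (Or.inl rfl) (Or.inl rfl)
    simpa [Op.app] using this
  obtain ⟨l1, g1, g4⟩ := (Al.cl D True).run F hl0 (by simp) ((1 : ℝ) :: (x.map bit ++ z)) (by
    intro a ha
    rcases List.mem_cons.1 ha with h | h
    · exact Or.inl h
    · rcases List.mem_append.1 h with h | h
      · obtain ⟨c, -, rfl⟩ := List.mem_map.1 h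
        rcases bit_mem c with h | h
        · exact Or.inr (by rw [h]; simp)
        · exact Or.inl h
      · exact mem1_of (hz a h) (by intro a h; simp [h]))
  have hval : F.val ((1 : ℝ) :: (x.map bit ++ z)) = 1 ∨
      F.val ((1 : ℝ) :: (x.map bit ++ z)) ∈ l1 := by
    rw [SLP.val]
    rcases List.eq_nil_or_concat (F.run ((1 : ℝ) :: (x.map bit ++ z))) with h | ⟨w, f, h⟩
    · rw [h]; exact Or.inr (g1.2.2 0 (by simp))
    · rw [h, List.concat_eq_append] at g4 ⊢
      have : (w ++ [f]).getLastD 0 = f := by simp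
      rw [this]
      exact g4 f (by simp)
  have hlow := (g1.1.bds hval).2 hpos.ne'
  rw [abs_of_pos hpos] at hlow
  have hB := BR_ge D S
  have hlow2 : (BR D S)⁻¹ ≤ F.val ((1 : ℝ) :: (x.map bit ++ z)) := by
    refine (inv_anti₀ (by linarith [BR_ge D l1.length]) (BR_mono D ?_)).trans hlow
    have := g1.2.1
    rw [List.length_cons] at this
    omega
  -- approximation
  obtain ⟨l', h1, h2, h3⟩ := approxD' hD hl (S := S) (by omega) (KB D S + S + 2)
  set ε : ℝ := ((2:ℝ) ^ 2 ^ (KB D S + S + 2))⁻¹ with hε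
  have hε0 : 0 ≤ ε := by positivity
  obtain ⟨z', hz'⟩ := forall2_exists (P := fun a b => (b = 1 ∨ b ∈ l') ∧ |a - b| ≤ ε ∧
    (a = 1 ∨ a ∈ l)) z (fun a ha => by
      obtain ⟨b, hb, hd⟩ := h3 a (hz a ha)
      exact ⟨b, hb, hd, hz a ha⟩)
  refine ⟨z', hz'.length_eq.symm, ⟨l', h1, h2.trans (by rw [RF]), ?_⟩, ?_⟩
  · intro b hb
    obtain ⟨i, hi, rfl⟩ := List.getElem_of_mem hb
    have := List.forall₂_iff_get.1 hz'
    have h5 := this.2 i (by rw [this.1]; exact hi) hi
    exact h5.1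
  · have hBk : BR D S + 1 ≤ 2 ^ 2 ^ (KB D S + 1) := by
      rw [dexp_succ]
      change BR D S + 1 ≤ BR D S ^ 2
      nlinarith
    have hε1 : ε ≤ 1 := inv_le_one_of_one_le₀ (one_le_pow₀ (by norm_num))
    have hrel : List.Forall₂ (RR ε (KB D S + 1)) ((1 : ℝ) :: (x.map bit ++ z))
        ((1 : ℝ) :: (x.map bit ++ z')) := by
      have h1' : ∀ a : ℝ, |a| ≤ 1 → RR ε (KB D S + 1) a a := by
        intro a ha
        refine ⟨by linarith, by linarith, ?_⟩
        simp only [sub_self, abs_zero]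
        positivity
      refine .cons (h1' 1 (by simp)) (List.rel_append ?_ ?_)
      · rw [List.forall₂_map_left_iff, List.forall₂_map_right_iff, List.forall₂_same]
        intro c _
        refine h1' _ ?_
        rcases bit_mem c with h | h <;> rw [h] <;> norm_num
      · refine hz'.imp ?_
        rintro a b ⟨-, hd, ha⟩
        have h5 := (hl.bds ha).1.trans (BR_mono D (s := l.length) (t := S) (by omega))
        refine ⟨by linarith, ?_, ?_⟩
        · have h6 : |b| ≤ |a| + |a - b| := by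
            have := abs_sub_abs_le_abs_sub b a
            rw [abs_sub_comm b a] at this
            linarith
          linarith
        · refine hd.trans ?_
          have : (1:ℝ) ≤ 2 ^ 2 ^ (KB D S + 1 + 1) := one_le_pow₀ (by norm_num)
          nlinarith
    have hlast := rel_last hε0 (run_lip hε0 F hrel)
    have hd := hlast.2.2
    rw [← SLP.val, ← SLP.val] at hd
    have hfin : ε * 2 ^ 2 ^ (KB D S + 1 + F.length + 1) < (BR D S)⁻¹ := by
      have hBpos : 0 < BR D S := by linarith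
      have e1 : (2:ℝ) ^ 2 ^ (KB D S + 1 + F.length + 1) ≤ 2 ^ 2 ^ (KB D S + S + 1) :=
        pow_le_pow_right₀ (by norm_num) (Nat.pow_le_pow_right (by norm_num) (by omega))
      have e2 : (2:ℝ) ^ 2 ^ (KB D S + S + 1) * BR D S < 2 ^ 2 ^ (KB D S + S + 2) := by
        rw [BR, ← pow_add]
        refine pow_lt_pow_right₀ (by norm_num) ?_
        have f1 : 2 ^ KB D S < 2 ^ (KB D S + S + 1) :=
          Nat.pow_lt_pow_right (by norm_num) (by omega)
        have f2 : 2 ^ (KB D S + S + 2) = 2 * 2 ^ (KB D S + S + 1) := by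
          rw [show KB D S + S + 2 = (KB D S + S + 1) + 1 by ring, pow_succ]; ring
        omega
      rw [lt_inv_comm₀ (by positivity) hBpos]
      have e3 : (ε * 2 ^ 2 ^ (KB D S + 1 + F.length + 1))⁻¹ =
          2 ^ 2 ^ (KB D S + S + 2) / 2 ^ 2 ^ (KB D S + 1 + F.length + 1) := by
        rw [hε, mul_inv, inv_inv, div_eq_mul_inv]
      rw [e3, lt_div_iff₀ (by positivity)]
      calc BR D S * 2 ^ 2 ^ (KB D S + 1 + F.length + 1) ≤ BR D S * 2 ^ 2 ^ (KB D S + S + 1) := by
            gcongr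
        _ = 2 ^ 2 ^ (KB D S + S + 1) * BR D S := mul_comm _ _
        _ < _ := e2
    rw [abs_le] at hd
    linarith [hd.2]

/-! ### polynomial bounds -/

/-- Polynomially bounded functions. -/
def PB (f : ℕ → ℕ) : Prop := ∃ c, ∀ s, f s ≤ (s + 2) ^ c

theorem PB.const (a : ℕ) : PB fun _ => a :=
  ⟨a, fun s => (Nat.lt_two_pow_self).le.trans (Nat.pow_le_pow_left (by omega) a)⟩

theorem PB.id : PB fun s => s := ⟨1, fun s => by
  show s ≤ (s + 2) ^ 1
  rw [pow_one]; omega⟩

theorem PB.mul {f g : ℕ → ℕ} (hf : PB f) (hg : PB g) : PB fun s => f s * g s := by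
  obtain ⟨a, ha⟩ := hf
  obtain ⟨b, hb⟩ := hg
  exact ⟨a + b, fun s => by rw [pow_add]; exact Nat.mul_le_mul (ha s) (hb s)⟩

theorem PB.add {f g : ℕ → ℕ} (hf : PB f) (hg : PB g) : PB fun s => f s + g s := by
  obtain ⟨a, ha⟩ := hf
  obtain ⟨b, hb⟩ := hg
  refine ⟨a + b + 1, fun s => ?_⟩
  have h1 : 1 ≤ (s + 2) ^ a := Nat.one_le_pow _ _ (by omega)
  have h2 : 1 ≤ (s + 2) ^ b := Nat.one_le_pow _ _ (by omega)
  have h3 := ha s
  have h4 := hb s
  have h5 : (s + 2) ^ (a + b + 1) = ((s + 2) ^ a * (s + 2) ^ b) * (s + 2) := by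
    rw [pow_succ, pow_add]
  show f s + g s ≤ _
  rw [h5]
  generalize (s + 2) ^ a = X at *
  generalize (s + 2) ^ b = Y at *
  have h6 : X + Y ≤ X * Y * 2 := by nlinarith
  have h7 : X * Y * 2 ≤ X * Y * (s + 2) := Nat.mul_le_mul_left _ (by omega)
  omega

variable {f g h : ℕ → ℕ}

theorem PB.KS (hf : PB f) (hg : PB g) : PB fun s => KS (f s) (g s) :=
  ((PB.const 2).mul ((hg.add hf).add (PB.const 1))).add (hf.mul hg)

theorem PB.KB (hf : PB f) (hg : PB g) : PB fun s => KB (f s) (g s) :=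
  (hf.KS ((PB.const 1).add (hg.mul ((hf.mul (hf.add (PB.const 4))).add (PB.const 5))))).add
    (PB.const 1)

theorem PB.SX (hf : PB f) : PB fun s => SX (f s) :=
  (((((PB.const 1).add (hf.mul ((PB.const 2).mul hf))).add
    ((PB.const 2).mul (hf.add (PB.const 2)))).add (PB.const 1)).add
    ((PB.const 3).mul (hf.add (PB.const 1))))

theorem PB.KT (hf : PB f) (hg : PB g) : PB fun s => KT (f s) (g s) :=
  ((hf.KB (hg.add hf.SX)).add ((PB.const 2).mul hf)).add (PB.const 4)

theorem PB.KI (hf : PB f) (hg : PB g) (hh : PB h) : PB fun s => KI (f s) (g s) (h s) :=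
  ((((hf.KT hg).add hf).add hg).add hh).add (PB.const 6)

theorem PB.L0 (hf : PB f) (hg : PB g) : PB fun s => L0 (f s) (g s) :=
  ((((PB.const 2).mul (hg.add (PB.const 2))).add (PB.const 5)).add
    ((PB.const 2).mul (hf.add (PB.const 10)))).add (PB.const 2)

theorem PB.L1 (hf : PB f) (hg : PB g) (hh : PB h) : PB fun s => L1 (f s) (g s) (h s) :=
  (((hf.L0 hg).add (hh.mul (((PB.const 6).mul (hf.add (PB.const 1))).add (PB.const 3)))).add
    ((PB.const 2).mul (hf.add (PB.const 1)))).add (PB.const 2)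

theorem PB.LG (hf : PB f) (hg : PB g) (hh : PB h) : PB fun s => LG (f s) (g s) (h s) :=
  (((hf.add (PB.const 1)).mul ((PB.const 2).mul hf)).add
    (((PB.const 2).mul hh).add (PB.const 5))).add (hf.mul (hf.L1 hg hh))

theorem PB.RF (hf : PB f) (hg : PB g) : PB fun s => RF (f s) (g s) :=
  (PB.const 1).add (hg.mul (hf.LG (hf.KT hg) (hf.KI hg (((hf.KB hg).add hg).add (PB.const 2)))))

end Pool.Agent.SLPQ
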