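import Pool.Agent.Lib_helper53.SLPD.Rec

/-!
# Approximation of a root gate
-/

namespace Pool.Agent.SLPQ

open Polynomial

theorem nm_of {D K k : ℕ} (hD : 1 ≤ D) {B δ ρ : ℝ} (hB : B = 2 ^ 2 ^ K)
    (hDB : 1024 * (D:ℝ) ≤ B) (h0 : B ^ 2 * (2 ^ 2 ^ k)⁻¹ ≤ δ) (h1 : B ^ (4 * D + 10) * δ ≤ 1)
    (hρ1 : B ^ (4 * D + 7) * δ ≤ ρ) (hρ2 : ρ ≤ 2 * (B ^ (4 * D + 7) * δ)) :
    Nm D K B (B * δ) ρ (B ^ (4 * D + 8) * δ) ∧
      64 * B * (8 ^ 2 ^ k)⁻¹ + 4 * ρ ≤ B ^ (4 * D + 8) * δ := by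
  have hDR : (1:ℝ) ≤ D := by exact_mod_cast hD
  have hB16 : 1024 ≤ B := by linarith
  have hB1 : 1 ≤ B := by linarith
  have hB0 : 0 < B := by linarith
  have hδ : 0 ≤ δ := le_trans (by positivity) h0
  set W : ℝ := (D + 1) * (9 * B) ^ D with hW
  have hW0 : 0 ≤ W := by positivity
  have hWB : W ≤ B ^ (2 * D + 1) := by
    have e1 : (9 * B) ^ D ≤ B ^ (2 * D) := by
      rw [pow_mul]
      exact pow_le_pow_left₀ (by positivity) (by nlinarith) _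
    calc W ≤ B * B ^ (2 * D) := by
          rw [hW]
          exact mul_le_mul (by linarith) e1 (by positivity) hB0.le
      _ = B ^ (2 * D + 1) := by rw [pow_succ]; ring
  have hW2 : W * W ≤ B ^ (4 * D + 2) := by
    calc W * W ≤ B ^ (2 * D + 1) * B ^ (2 * D + 1) := mul_le_mul hWB hWB hW0 (by positivity)
      _ = B ^ (4 * D + 2) := by rw [← pow_add]; congr 1; ring
  set t : ℝ := B ^ (4 * D + 7) * δ with ht
  have ht0 : 0 ≤ t := by positivity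
  have ht8 : B ^ (4 * D + 8) * δ = t * B := by
    rw [ht, show 4 * D + 8 = 4 * D + 7 + 1 by ring, pow_succ]; ring
  have ht10 : B ^ (4 * D + 10) * δ = t * B ^ 3 := by
    rw [ht, show 4 * D + 10 = 4 * D + 7 + 3 by ring, pow_add]; ring
  rw [ht10] at h1
  rw [ht8]
  refine ⟨⟨hD, hB, hDB, by positivity, ?_, ?_, ?_, ?_⟩, ?_⟩
  · calc t * B * (1024 * D * B) ≤ t * B * (B * B) := by gcongr
      _ = t * B ^ 3 := by ring
      _ ≤ 1 := h1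
  · rw [← one_div, le_div_iff₀ (by positivity)]
    calc B * δ * W * (2 * B) ≤ B * δ * B ^ (2 * D + 1) * (B * B) := by gcongr; linarith
      _ = B ^ (2 * D + 4) * δ := by
          rw [show 2 * D + 4 = 2 * D + 1 + 3 by ring, pow_add]; ring
      _ ≤ B ^ (4 * D + 10) * δ :=
          mul_le_mul_of_nonneg_right (pow_le_pow_right₀ hB1 (by omega)) hδ
      _ ≤ 1 := by rw [ht10]; exact h1
  · refine le_trans ?_ hρ1
    calc 4 * (B * W) * (B * δ * W) * B ^ 2 = 4 * B ^ 4 * δ * (W * W) := by ring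
      _ ≤ B * B ^ 4 * δ * B ^ (4 * D + 2) := by gcongr; linarith
      _ = t := by
          rw [ht, show 4 * D + 7 = 4 * D + 2 + 5 by ring, pow_add B (4 * D + 2) 5]; ring
  · calc ρ * (1024 * D * B) ≤ 2 * t * (B * B) := by gcongr
      _ ≤ t * B ^ 3 := by
          have : 2 * t * (B * B) ≤ B * t * (B * B) := by gcongr; linarith
          calc 2 * t * (B * B) ≤ B * t * (B * B) := this
            _ = t * B ^ 3 := by ring
      _ ≤ 1 := h1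
  · have e1 : ((8:ℝ) ^ 2 ^ k)⁻¹ ≤ (2 ^ 2 ^ k)⁻¹ := by
      refine inv_anti₀ (by positivity) ?_
      exact pow_le_pow_left₀ (by norm_num) (by norm_num) _
    have e2 : 64 * B * (8 ^ 2 ^ k)⁻¹ ≤ δ := by
      calc 64 * B * (8 ^ 2 ^ k)⁻¹ ≤ 64 * B * (2 ^ 2 ^ k)⁻¹ := by gcongr
        _ ≤ B * B * (2 ^ 2 ^ k)⁻¹ := by gcongr; linarith
        _ = B ^ 2 * (2 ^ 2 ^ k)⁻¹ := by ring
        _ ≤ δ := h0
    have e3 : δ ≤ t := by
      have : (1:ℝ) ≤ B ^ (4 * D + 7) := one_le_pow₀ hB1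
      rw [ht]; nlinarith
    nlinarith

/-- The cost of a root gate. -/
def LG (D K k : ℕ) : ℕ := (D + 1) * (2 * D) + (2 * k + 5) + D * L1 D K k

theorem gate {D K k : ℕ} (hD : 1 ≤ D) {B δ : ℝ} (hB : B = 2 ^ 2 ^ K)
    (hDB : 1024 * (D:ℝ) ≤ B) (hDD : (D:ℝ) ^ D ≤ B) (hδ0 : B ^ 2 * (2 ^ 2 ^ k)⁻¹ ≤ δ)
    (hδ1 : B ^ (4 * D + 10) * δ ≤ 1) {p : ℝ[X]} (hb : Bdd p B) (hp : p.natDegree ≤ D)
    (hne : p ≠ 0) {θ : ℝ} (hθ : p.eval θ = 0) {l : List ℝ} (hl : Rt False l) (h0 : (0:ℝ) ∈ l)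
    (happ : ∀ n, ∃ b, (b = 1 ∨ b ∈ l) ∧ |p.coeff n - b| ≤ δ) :
    ∃ l', Xt (Rt False) l (LG D K k) l' ∧
      ∃ y, (y = 1 ∨ y ∈ l') ∧ |θ - y| ≤ B ^ (4 * D + 8) * δ := by
  have hDR : (1:ℝ) ≤ D := by exact_mod_cast hD
  have hB1 : 1 ≤ B := by linarith
  have hB0 : 0 < B := by linarith
  have hk0 : (0:ℝ) < (2 ^ 2 ^ k)⁻¹ := by positivity
  have hδ : 0 ≤ δ := le_trans (by positivity) hδ0
  choose b hb1 hb2 using happ
  set f : ℝ[X] := ∑ n ∈ Finset.range (D + 1), monomial n (b n) with hf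
  have hfc : ∀ n, f.coeff n = if n < D + 1 then b n else 0 := by
    intro n
    rw [hf, finsetSum_coeff]
    simp only [coeff_monomial]
    rw [Finset.sum_ite_eq' (Finset.range (D + 1)) n b]
    simp
  have hfd : f.natDegree ≤ D := by
    rw [Polynomial.natDegree_le_iff_coeff_eq_zero]
    intro n hn
    rw [hfc, if_neg (by omega)]
  have hfm : ∀ n, f.coeff n = 1 ∨ f.coeff n ∈ l := by
    intro n
    rw [hfc]
    split_ifs
    · exact hb1 n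
    · exact Or.inr h0
  have hfe : ∀ n, |p.coeff n - f.coeff n| ≤ δ := by
    intro n
    rw [hfc]
    split_ifs with h
    · exact hb2 n
    · rw [Polynomial.coeff_eq_zero_of_natDegree_lt (by omega)]
      simpa using hδ
  obtain ⟨l1, x1, y1⟩ := ext_ders (Rt.cl False) hl h0 f hfd hfm (D + 1)
  have ht1 : B ^ (4 * D + 7) * δ ≤ 1 := by
    exact le_trans (mul_le_mul_of_nonneg_right (pow_le_pow_right₀ hB1 (by omega)) hδ) hδ1
  obtain ⟨l2, x2, ρ, y2, y3, y4⟩ := ext_pow2 x1.1 (J := k) (t := B ^ (4 * D + 7) * δ) (by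
      have e1 : (1:ℝ) ≤ B ^ (4 * D + 7) := one_le_pow₀ hB1
      have e2 : (1:ℝ) ≤ B ^ 2 := one_le_pow₀ hB1
      calc ((2:ℝ) ^ 2 ^ k)⁻¹ = 1 * (1 * (2 ^ 2 ^ k)⁻¹) := by ring
        _ ≤ B ^ (4 * D + 7) * (B ^ 2 * (2 ^ 2 ^ k)⁻¹) := by gcongr
        _ ≤ B ^ (4 * D + 7) * δ := by gcongr)
    (ht1.trans (one_le_pow₀ (by norm_num)))
  obtain ⟨hN, hE⟩ := nm_of hD hB hDB hδ0 hδ1 y3 y4
  have x12 := x1.trans x2
  obtain ⟨l3, x3, y, y5, y6⟩ := roots_rec hN hE hb hp hfd (fun j n =>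
      (iter_coeff_err hD hp hfd hfe j n).trans (by gcongr)) (x12.2.2 0 h0)
    (fun j hj n => x2.mem (y1 j hj n)) y2 D 0 (by omega) hne θ hθ l2 x2.1 (fun a ha => ha)
  exact ⟨l3, (x12.trans x3).le (by rw [LG]), y, y5, y6⟩

end Pool.Agent.SLPQ
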