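import Mathlib

/-!
# Newton iteration between consecutive roots of the derivatives
-/

namespace Pool.Agent.SLPQ

open Polynomial Set

theorem poly_mono {f : ℝ[X]} {a c : ℝ} (hac : a ≤ c)
    (h : ∀ t ∈ Ioo a c, 0 ≤ (derivative f).eval t) : f.eval a ≤ f.eval c := by
  have := monotoneOn_of_deriv_nonneg (convex_Icc a c) f.continuous.continuousOn
    f.differentiable.differentiableOn (by
      intro x hx
      rw [interior_Icc] at hx
      rw [Polynomial.deriv]
      exact h x hx)
  exact this (left_mem_Icc.2 hac) (right_mem_Icc.2 hac) hac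

theorem poly_nonneg_left {f : ℝ[X]} {a c : ℝ} (hac : a < c) (h : ∀ t ∈ Ioo a c, 0 ≤ f.eval t) :
    0 ≤ f.eval a := by
  have hcl : IsClosed {t : ℝ | 0 ≤ f.eval t} := isClosed_le continuous_const f.continuous
  have h1 : closure (Ioo a c) ⊆ {t : ℝ | 0 ≤ f.eval t} := closure_minimal h hcl
  rw [closure_Ioo hac.ne] at h1
  exact h1 (left_mem_Icc.2 hac.le)

/-- All derivatives have a constant sign on the interval. -/
def CSg (g : ℝ[X]) (α b : ℝ) : Prop := ∀ j, (∀ t ∈ Ioo α b, 0 ≤ (derivative^[j] g).eval t) ∨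
  (∀ t ∈ Ioo α b, (derivative^[j] g).eval t ≤ 0)

theorem CSg.der {g : ℝ[X]} {α b : ℝ} (h : CSg g α b) : CSg (derivative g) α b := by
  intro j
  have := h (j + 1)
  rwa [Function.iterate_succ_apply] at this

/-- Growth of polynomials whose derivatives have constant signs. -/
theorem growth (n : ℕ) : ∀ (h : ℝ[X]) (_ : h.natDegree ≤ n) {α b : ℝ} (_ : CSg h α b)
    (_ : ∀ t ∈ Ioo α b, 0 ≤ h.eval t) (_ : ∀ t ∈ Ioo α b, 0 ≤ (derivative h).eval t),
    ∀ t ∈ Ioo α b, (t - α) * (derivative h).eval t ≤ n * h.eval t := by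
  induction n with
  | zero =>
    intro h hn α b _ _ _ t ht
    rw [Polynomial.eq_C_of_natDegree_le_zero hn]
    simp
  | succ n ih =>
    intro h hn α b hc h0 h1 t ht
    have key : ∀ u ∈ Ioo α b, (u - α) * (derivative (derivative h)).eval u ≤
        n * (derivative h).eval u := by
      intro u hu
      rcases hc 2 with h2 | h2
      · exact ih (derivative h) ((Polynomial.natDegree_derivative_le h).trans (by omega)) hc.der
          h1 h2 u hu
      · have e1 := h2 u hu
        change (derivative (derivative h)).eval u ≤ 0 at e1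
        have e2 := h1 u hu
        have e3 : (u - α) * (derivative (derivative h)).eval u ≤ 0 :=
          mul_nonpos_of_nonneg_of_nonpos (by linarith [hu.1]) e1
        have e4 : 0 ≤ (n:ℝ) * (derivative h).eval u := by positivity
        linarith
    have hαb : α < b := ht.1.trans ht.2
    set φ : ℝ[X] := C ((n:ℝ) + 1) * h - (X - C α) * derivative h with hφ
    have hm : φ.eval α ≤ φ.eval t := by
      refine poly_mono ht.1.le fun u hu => ?_
      have hu' : u ∈ Ioo α b := ⟨hu.1, hu.2.trans ht.2⟩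
      have e1 := key u hu'
      have e2 : (derivative φ).eval u =
          n * (derivative h).eval u - (u - α) * (derivative (derivative h)).eval u := by
        rw [hφ]
        simp only [derivative_sub, derivative_mul, derivative_C, derivative_X, zero_mul, zero_add,
          sub_zero, one_mul, eval_sub, eval_add, eval_mul, eval_C, eval_X]
        ring
      rw [e2]
      linarith
    have h3 : φ.eval α = ((n:ℝ) + 1) * h.eval α := by rw [hφ]; simp
    have h4 : φ.eval t = ((n:ℝ) + 1) * h.eval t - (t - α) * (derivative h).eval t := by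
      rw [hφ]; simp
    have h5 := poly_nonneg_left hαb h0
    have h6 : 0 ≤ ((n:ℝ) + 1) * h.eval α := by positivity
    push_cast
    linarith

theorem poly_mvt (f : ℝ[X]) {a c : ℝ} (hac : a < c) :
    ∃ ξ ∈ Ioo a c, f.eval c - f.eval a = (derivative f).eval ξ * (c - a) := by
  obtain ⟨ξ, h1, h2⟩ := exists_deriv_eq_slope (fun x => f.eval x) hac f.continuous.continuousOn
    f.differentiable.differentiableOn
  refine ⟨ξ, h1, ?_⟩
  rw [Polynomial.deriv, eq_div_iff (by linarith)] at h2
  linarith

/-- One Newton step, increasing convex case. -/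
theorem newton_pos {g : ℝ[X]} {n : ℕ} {α b θ x : ℝ}
    (h1 : ∀ t ∈ Ioo α b, 0 ≤ (derivative (derivative g)).eval t)
    (hgr : ∀ t ∈ Ioo α b, (t - α) * (derivative (derivative g)).eval t ≤ n * (derivative g).eval t)
    (hα : α < θ) (hg : g.eval θ = 0) (hθ : 0 < (derivative g).eval θ) (hx1 : θ ≤ x) (hx2 : x < b) :
    (derivative g).eval θ ≤ (derivative g).eval x ∧
    θ ≤ x - g.eval x / (derivative g).eval x ∧
    x - g.eval x / (derivative g).eval x - θ ≤ n / (θ - α) * (x - θ) ^ 2 := by
  have hm : ∀ u v, θ ≤ u → u ≤ v → v < b → (derivative g).eval u ≤ (derivative g).eval v := by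
    intro u v hu huv hv
    refine poly_mono huv fun t ht => ?_
    exact h1 t ⟨by linarith [ht.1], by linarith [ht.2]⟩
  have hθx := hm θ x le_rfl hx1 hx2
  have hgx : 0 < (derivative g).eval x := by linarith
  have hA : 0 < θ - α := by linarith
  refine ⟨hθx, ?_⟩
  rcases hx1.eq_or_lt with rfl | hx1
  · rw [hg]; simp
  · obtain ⟨ξ, hξ, e1⟩ := poly_mvt g hx1
    obtain ⟨ζ, hζ, e2⟩ := poly_mvt (derivative g) hξ.2
    rw [hg, sub_zero] at e1
    have e3 : x - g.eval x / (derivative g).eval x - θ =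
        ((derivative g).eval x - (derivative g).eval ξ) * (x - θ) / (derivative g).eval x := by
      rw [e1]
      field_simp
      ring
    have hmξ := hm ξ x hξ.1.le hξ.2.le hx2
    have hpos : 0 ≤ ((derivative g).eval x - (derivative g).eval ξ) * (x - θ) /
        (derivative g).eval x := by
      have : 0 ≤ (derivative g).eval x - (derivative g).eval ξ := by linarith
      have : 0 ≤ x - θ := by linarith
      positivity
    constructor
    · linarith
    · rw [e3, e2, div_le_iff₀ hgx]
      have hζ' : ζ ∈ Ioo α b := ⟨by linarith [hζ.1, hξ.1], by linarith [hζ.2]⟩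
      have e4 := hgr ζ hζ'
      have e5 := h1 ζ hζ'
      have e6 := hm ζ x (by linarith [hζ.1, hξ.1]) hζ.2.le hx2
      have e7 : (θ - α) * (derivative (derivative g)).eval ζ ≤ n * (derivative g).eval x := by
        have : (θ - α) * (derivative (derivative g)).eval ζ ≤
            (ζ - α) * (derivative (derivative g)).eval ζ := by
          gcongr; linarith [hζ.1, hξ.1]
        have : (n:ℝ) * (derivative g).eval ζ ≤ n * (derivative g).eval x := by gcongr
        linarith
      have e8 : (derivative (derivative g)).eval ζ ≤ n * (derivative g).eval x / (θ - α) := by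
        rw [le_div_iff₀ hA]; linarith
      have e9 : (x - ξ) * (x - θ) ≤ (x - θ) ^ 2 := by
        rw [sq]
        refine mul_le_mul_of_nonneg_right (by linarith [hξ.1]) (by linarith)
      have e10 : 0 ≤ (x - ξ) * (x - θ) := mul_nonneg (by linarith [hξ.2]) (by linarith)
      calc (derivative (derivative g)).eval ζ * (x - ξ) * (x - θ)
          = (derivative (derivative g)).eval ζ * ((x - ξ) * (x - θ)) := by ring
        _ ≤ (n * (derivative g).eval x / (θ - α)) * ((x - θ) ^ 2) := by
            exact mul_le_mul e8 e9 e10 (by positivity)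
        _ = n / (θ - α) * (x - θ) ^ 2 * (derivative g).eval x := by ring

/-- The situation in which Newton's iteration from the right converges. -/
structure Nice (g : ℝ[X]) (α b θ : ℝ) : Prop where
  csg : CSg (derivative g) α b
  lt1 : α < θ
  lt2 : θ < b
  root : g.eval θ = 0
  only : ∀ j, 1 ≤ j → derivative^[j] g ≠ 0 → (derivative^[j] g).eval θ ≠ 0
  sgn : 0 ≤ (derivative g).eval θ * (derivative (derivative g)).eval θ
  ne : (derivative g).eval θ ≠ 0

theorem Nice.step {g : ℝ[X]} {n : ℕ} (hn : g.natDegree ≤ n) {α b θ x : ℝ} (h : Nice g α b θ)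
    (hx1 : θ ≤ x) (hx2 : x < b) :
    ((θ - α) * |(derivative (derivative g)).eval θ| ≤ n * |(derivative g).eval θ|) ∧
    |(derivative g).eval θ| ≤ |(derivative g).eval x| ∧
    θ ≤ x - g.eval x / (derivative g).eval x ∧
    x - g.eval x / (derivative g).eval x - θ ≤ n / (θ - α) * (x - θ) ^ 2 := by
  -- positive case
  have key : ∀ g : ℝ[X], g.natDegree ≤ n → Nice g α b θ → 0 < (derivative g).eval θ →
      ((θ - α) * |(derivative (derivative g)).eval θ| ≤ n * |(derivative g).eval θ|) ∧
      |(derivative g).eval θ| ≤ |(derivative g).eval x| ∧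
      θ ≤ x - g.eval x / (derivative g).eval x ∧
      x - g.eval x / (derivative g).eval x - θ ≤ n / (θ - α) * (x - θ) ^ 2 := by
    intro g hn h hpos
    have hθ : θ ∈ Ioo α b := ⟨h.lt1, h.lt2⟩
    have h0 : ∀ t ∈ Ioo α b, 0 ≤ (derivative g).eval t := by
      rcases h.csg 0 with h' | h'
      · exact h'
      · have := h' θ hθ
        change (derivative g).eval θ ≤ 0 at this
        linarith
    have h1 : ∀ t ∈ Ioo α b, 0 ≤ (derivative (derivative g)).eval t := by
      rcases h.csg 1 with h' | h'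
      · exact h'
      · have e1 := h' θ hθ
        change (derivative (derivative g)).eval θ ≤ 0 at e1
        have e2 : 0 ≤ (derivative (derivative g)).eval θ := by
          have := h.sgn
          by_contra hcon
          push Not at hcon
          nlinarith
        have e3 : (derivative (derivative g)).eval θ = 0 := le_antisymm e1 e2
        have e4 : derivative (derivative g) = 0 := by
          by_contra hcon
          exact h.only 2 (by norm_num) hcon e3
        intro t _
        rw [e4]; simp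
    have hgr := growth n (derivative g) ((Polynomial.natDegree_derivative_le g).trans (by omega))
      h.csg h0 h1
    have := newton_pos h1 hgr h.lt1 h.root hpos hx1 hx2
    refine ⟨?_, ?_, this.2⟩
    · rw [abs_of_pos hpos, abs_of_nonneg (h1 θ hθ)]
      exact hgr θ hθ
    · rw [abs_of_pos hpos]
      exact this.1.trans (le_abs_self _)
  rcases lt_or_gt_of_ne h.ne with hneg | hpos
  · have hng : Nice (-g) α b θ := by
      refine ⟨?_, h.lt1, h.lt2, by rw [eval_neg, h.root, neg_zero], ?_, ?_, ?_⟩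
      · intro j
        rw [derivative_neg, Polynomial.iterate_derivative_neg]
        rcases h.csg j with h' | h'
        · right
          intro t ht
          rw [eval_neg]
          linarith [h' t ht]
        · left
          intro t ht
          rw [eval_neg]
          linarith [h' t ht]
      · intro j hj hne
        rw [Polynomial.iterate_derivative_neg] at hne ⊢
        rw [eval_neg]
        exact neg_ne_zero.2 (h.only j hj (neg_ne_zero.1 hne))
      · rw [derivative_neg, derivative_neg, eval_neg, eval_neg, neg_mul_neg]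
        exact h.sgn
      · rw [derivative_neg, eval_neg]
        exact neg_ne_zero.2 h.ne
    have := key (-g) (by rwa [natDegree_neg]) hng (by rw [derivative_neg, eval_neg]; linarith)
    rw [derivative_neg, derivative_neg] at this
    simp only [eval_neg, abs_neg, neg_div_neg_eq] at this
    exact this
  · exact key g hn h hpos

/-- The perturbed iteration. -/
theorem newton_iter {g : ℝ[X]} {n : ℕ} (hn : g.natDegree ≤ n) (hn1 : 1 ≤ n) {α b θ : ℝ}
    (h : Nice g α b θ) {Φ : ℝ → ℝ} {x₀ ρ : ℝ} (hx1 : θ + 4 * ρ ≤ x₀) (hx2 : x₀ < b)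
    (hx3 : n / (θ - α) * (x₀ - θ) ≤ 1 / 8) (hρ : 0 ≤ ρ) (hρ2 : n / (θ - α) * ρ ≤ 1 / 32)
    (hΦ : ∀ x, θ ≤ x → x ≤ x₀ →
      |Φ x - (x - g.eval x / (derivative g).eval x + ρ)| ≤ ρ) (k : ℕ) :
    θ ≤ Φ^[k] x₀ ∧ Φ^[k] x₀ ≤ x₀ ∧
      n / (θ - α) * (Φ^[k] x₀ - θ) ≤ (8 ^ 2 ^ k)⁻¹ + 4 * (n / (θ - α) * ρ) := by
  have hA : 0 < θ - α := by linarith [h.lt1]
  set κ : ℝ := n / (θ - α) with hκ
  have hκ0 : 0 < κ := by
    have : (1:ℝ) ≤ n := by exact_mod_cast hn1
    positivity
  induction k with
  | zero =>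
    refine ⟨by simp; linarith, le_rfl, ?_⟩
    have : 0 ≤ κ * ρ := by positivity
    norm_num at hx3 ⊢
    linarith
  | succ k ih =>
    obtain ⟨i1, i2, i3⟩ := ih
    rw [Function.iterate_succ_apply']
    set y := Φ^[k] x₀ with hy
    have hstep := (h.step hn i1 (lt_of_le_of_lt i2 hx2)).2
    have hp := hΦ y i1 i2
    rw [abs_le] at hp
    set N := y - g.eval y / (derivative g).eval y with hN
    have e1 : Φ y - θ ≤ κ * (y - θ) ^ 2 + 2 * ρ := by linarith [hstep.2.2, hp.2]
    have e2 : θ ≤ Φ y := by linarith [hstep.2.1, hp.1]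
    have hyy : κ * (y - θ) ≤ κ * (x₀ - θ) := by gcongr
    refine ⟨e2, ?_, ?_⟩
    · have e3 : κ * (y - θ) ^ 2 ≤ 1 / 8 * (y - θ) := by
        have : κ * (y - θ) ^ 2 = κ * (y - θ) * (y - θ) := by ring
        rw [this]
        exact mul_le_mul_of_nonneg_right (by linarith) (by linarith)
      linarith
    · have hv := i3
      set v := κ * (y - θ) with hv'
      have hv0 : 0 ≤ v := mul_nonneg hκ0.le (by linarith)
      have e4 : κ * (Φ y - θ) ≤ v ^ 2 + 2 * (κ * ρ) := by
        calc κ * (Φ y - θ) ≤ κ * (κ * (y - θ) ^ 2 + 2 * ρ) := by gcongr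
          _ = v ^ 2 + 2 * (κ * ρ) := by rw [hv']; ring
      set a : ℝ := ((8:ℝ) ^ 2 ^ k)⁻¹ with ha
      have ha0 : 0 < a := by positivity
      have ha8 : a ≤ 1 / 8 := by
        rw [ha, ← one_div]
        refine one_div_le_one_div_of_le (by norm_num) ?_
        calc (8:ℝ) = 8 ^ 1 := by norm_num
          _ ≤ 8 ^ 2 ^ k := pow_le_pow_right₀ (by norm_num) (Nat.one_le_two_pow)
      have ha2 : ((8:ℝ) ^ 2 ^ (k + 1))⁻¹ = a ^ 2 := by
        rw [ha, inv_pow, ← pow_mul, pow_succ]
      rw [ha2]
      set τ := κ * ρ with hτ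
      have hτ0 : 0 ≤ τ := by positivity
      have e5 : v ^ 2 ≤ (a + 4 * τ) ^ 2 := pow_le_pow_left₀ hv0 hv 2
      nlinarith

/-- The real roots of the nonzero proper derivatives. -/
def ZZ (g : ℝ[X]) : Set ℝ := {z | ∃ j, 1 ≤ j ∧ derivative^[j] g ≠ 0 ∧ (derivative^[j] g).eval z = 0}

theorem ZZ_finite (g : ℝ[X]) : (ZZ g).Finite := by
  have h : ZZ g ⊆ ⋃ j ∈ (Finset.range (g.natDegree + 1) : Finset ℕ),
      ((derivative^[j] g).roots.toFinset : Set ℝ) := by
    rintro z ⟨j, _, hj, hz⟩
    have hjn : j ≤ g.natDegree := by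
      by_contra hcon
      push Not at hcon
      exact hj (Polynomial.iterate_derivative_eq_zero hcon)
    simp only [Set.mem_iUnion]
    refine ⟨j, by simpa using Nat.lt_succ_of_le hjn, ?_⟩
    rw [Finset.mem_coe, Multiset.mem_toFinset, Polynomial.mem_roots hj]
    exact hz
  refine Set.Finite.subset ?_ h
  exact Set.Finite.biUnion (Finset.finite_toSet _) fun j _ => Finset.finite_toSet _

theorem const_sign {f : ℝ[X]} {α b : ℝ} (h : ∀ t ∈ Ioo α b, f.eval t ≠ 0) :
    (∀ t ∈ Ioo α b, 0 ≤ f.eval t) ∨ (∀ t ∈ Ioo α b, f.eval t ≤ 0) := by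
  by_contra hcon
  push Not at hcon
  obtain ⟨⟨s, hs1, hs2⟩, t, ht1, ht2⟩ := hcon
  have := isPreconnected_Ioo.intermediate_value hs1 ht1 f.continuous.continuousOn
  obtain ⟨u, hu1, hu2⟩ := this (⟨hs2.le, ht2.le⟩ : (0:ℝ) ∈ Icc (f.eval s) (f.eval t))
  exact h u hu1 hu2

theorem csg_of {g : ℝ[X]} {α b : ℝ} (h : ∀ z ∈ ZZ g, z ∉ Ioo α b) : CSg (derivative g) α b := by
  intro j
  by_cases h0 : derivative^[j] (derivative g) = 0
  · left
    intro t _
    rw [h0]; simp
  · refine const_sign fun t ht hcon => h t ⟨j + 1, by omega, ?_, ?_⟩ ht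
    · rwa [Function.iterate_succ_apply]
    · rwa [Function.iterate_succ_apply]

/-- The hypotheses on the root `θ`. -/
structure Rg (g : ℝ[X]) (θ : ℝ) : Prop where
  root : g.eval θ = 0
  only : ∀ j, 1 ≤ j → derivative^[j] g ≠ 0 → (derivative^[j] g).eval θ ≠ 0
  sgn : 0 ≤ (derivative g).eval θ * (derivative (derivative g)).eval θ
  ne : (derivative g).eval θ ≠ 0

theorem Rg.nice {g : ℝ[X]} {α b θ : ℝ} (h : Rg g θ) (h1 : α < θ) (h2 : θ < b)
    (h3 : ∀ z ∈ ZZ g, z ∉ Ioo α b) : Nice g α b θ :=
  ⟨csg_of h3, h1, h2, h.root, h.only, h.sgn, h.ne⟩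

theorem Rg.not_mem {g : ℝ[X]} {θ : ℝ} (h : Rg g θ) : θ ∉ ZZ g := by
  rintro ⟨j, h1, h2, h3⟩
  exact h.only j h1 h2 h3

/-- The next root of a derivative to the right. -/
theorem next_right {g : ℝ[X]} {θ : ℝ} (h : Rg g θ) (M : ℝ) (hM : 0 < M) :
    ∃ b, θ < b ∧ (b ∈ ZZ g ∨ b = θ + M) ∧ ∀ z ∈ ZZ g, z ≤ θ ∨ b ≤ z := by
  rcases (ZZ g ∩ Ioi θ).eq_empty_or_nonempty with he | hne
  · refine ⟨θ + M, by linarith, Or.inr rfl, fun z hz => ?_⟩
    left
    by_contra hcon
    push Not at hcon
    exact (he ▸ ⟨hz, hcon⟩ : z ∈ (∅ : Set ℝ))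
  · obtain ⟨b, hb, hmin⟩ := Set.exists_min_image (ZZ g ∩ Ioi θ) id
      ((ZZ_finite g).subset Set.inter_subset_left) hne
    refine ⟨b, hb.2, Or.inl hb.1, fun z hz => ?_⟩
    rcases le_or_gt z θ with h | h
    · exact Or.inl h
    · exact Or.inr (hmin z ⟨hz, h⟩)

/-- The next root of a derivative to the left. -/
theorem next_left {g : ℝ[X]} {θ : ℝ} (h : Rg g θ) (h2 : derivative (derivative g) ≠ 0) :
    ∃ α, α < θ ∧ α ∈ ZZ g ∧ ∀ z ∈ ZZ g, z ≤ α ∨ θ ≤ z := by
  rcases (ZZ g ∩ Iio θ).eq_empty_or_nonempty with he | hne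
  · exfalso
    obtain ⟨b, hb1, -, hb3⟩ := next_right h 1 one_pos
    have hno : ∀ z ∈ ZZ g, θ < z := by
      intro z hz
      rcases lt_trichotomy z θ with h' | h' | h'
      · exact absurd (he ▸ ⟨hz, h'⟩ : z ∈ (∅ : Set ℝ)) (Set.notMem_empty z)
      · subst h'; exact absurd hz h.not_mem
      · exact h'
    have hg2 : 0 < |(derivative (derivative g)).eval θ| := abs_pos.2 (h.only 2 (by norm_num) h2)
    set r : ℝ := g.natDegree * |(derivative g).eval θ| / |(derivative (derivative g)).eval θ| + 1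
      with hr
    have hr0 : 0 < r := by positivity
    have hN : Nice g (θ - r) b θ := h.nice (by linarith) hb1 (by
      intro z hz hz'
      have := hno z hz
      rcases hb3 z hz with h' | h'
      · linarith
      · linarith [hz'.2])
    have := (hN.step le_rfl (x := θ) le_rfl hb1).1
    rw [show θ - (θ - r) = r by ring, hr, add_mul, one_mul, div_mul_cancel₀ _ hg2.ne'] at this
    linarith
  · obtain ⟨α, hα, hmax⟩ := Set.exists_max_image (ZZ g ∩ Iio θ) id
      ((ZZ_finite g).subset Set.inter_subset_left) hne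
    refine ⟨α, hα.2, hα.1, fun z hz => ?_⟩
    rcases le_or_gt θ z with h | h
    · exact Or.inr h
    · exact Or.inl (hmax z ⟨hz, h⟩)

end Pool.Agent.SLPQ
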