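import Pool.Agent.Lib_helper53.SLPD.Ext
import Pool.Agent.Lib_helper53.SLPD.Grow

/-!
# Rational approximation of real roots: start value and Newton iteration
-/

namespace Pool.Agent.SLPQ

open Polynomial

theorem ext_div_rt {l : List ℝ} (hl : Rt False l) {a b : ℝ} (ha : a = 1 ∨ a ∈ l)
    (hb : b = 1 ∨ b ∈ l) (h0 : b ≠ 0) : ∃ l', Xt (Rt False) l 1 l' ∧ (a / b = 1 ∨ a / b ∈ l') :=
  ⟨a / b :: l, ⟨.div hl ha hb h0, by simp, fun a ha => List.mem_cons_of_mem _ ha⟩,
    Or.inr List.mem_cons_self⟩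

theorem ext_pow2 {l : List ℝ} (hl : Rt False l) {J : ℕ} {t : ℝ} (h1 : ((2:ℝ) ^ 2 ^ J)⁻¹ ≤ t)
    (h2 : t ≤ 2 ^ 2 ^ J) : ∃ l', Xt (Rt False) l (2 * J + 5) l' ∧
      ∃ p, (p = 1 ∨ p ∈ l') ∧ t ≤ p ∧ p ≤ 2 * t := by
  have hP : (0:ℝ) < 2 ^ 2 ^ J := by positivity
  have ht : 0 < t := lt_of_lt_of_le (by positivity) h1
  obtain ⟨n, hn1, hn2⟩ := exists_mem_Ioc_zpow ht (one_lt_two : (1:ℝ) < 2)
  have hup : (2:ℝ) ^ (n + 1) ≤ 2 * t := by
    rw [zpow_add_one₀ (by norm_num)]; linarith
  have hj : 2 ^ J + 1 < 2 ^ (J + 2) := by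
    have : 2 ^ (J + 2) = 2 ^ J * 4 := by ring
    have : 1 ≤ 2 ^ J := Nat.one_le_two_pow
    omega
  rcases le_total 0 (n + 1) with h | h
  · obtain ⟨m, hm⟩ := Int.eq_ofNat_of_zero_le h
    rw [hm, zpow_natCast] at hup hn2
    have hm2 : m ≤ 2 ^ J + 1 := by
      have h3 : (2:ℝ) ^ m ≤ 2 ^ (2 ^ J + 1) := by rw [pow_succ]; linarith
      exact (pow_le_pow_iff_right₀ (by norm_num)).1 h3
    obtain ⟨l', g1, g2, g3, g4⟩ := ra_pow hl (J + 2) m (by omega)
    exact ⟨l', ⟨g1, by omega, g3⟩, _, g4, hn2, hup⟩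
  · obtain ⟨m, hm⟩ := Int.eq_ofNat_of_zero_le (neg_nonneg.2 h)
    have hm' : n + 1 = -(m:ℤ) := by omega
    rw [hm', zpow_neg, zpow_natCast] at hup hn2
    have hm2 : m ≤ 2 ^ J := by
      have h5 : (2:ℝ) ^ m ≤ 2 ^ 2 ^ J :=
        (inv_le_inv₀ (by positivity) (by positivity)).1 (h1.trans hn2)
      exact (pow_le_pow_iff_right₀ (by norm_num)).1 h5
    obtain ⟨l', g1, g2, g3, g4⟩ := ra_pow hl (J + 2) m (by omega)
    obtain ⟨l2, x2, y2⟩ := ext_div_rt g1 (Or.inl rfl) g4 (by positivity)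
    refine ⟨l2, ⟨x2.1, by have := x2.2.1; omega, fun a ha => x2.2.2 a (g3 a ha)⟩, _, y2, ?_, ?_⟩
    · rw [one_div]; exact hn2
    · rw [one_div]; exact hup

theorem eval_bound {f : ℝ[X]} {d : ℕ} (hd : f.natDegree ≤ d) {c X x : ℝ} (hX : 1 ≤ X)
    (hc : ∀ n, |f.coeff n| ≤ c) (hx : |x| ≤ X) : |f.eval x| ≤ c * ((d + 1) * X ^ d) := by
  have hc0 : 0 ≤ c := (abs_nonneg _).trans (hc 0)
  rw [Polynomial.eval_eq_sum_range' (Nat.lt_succ_of_le hd)]
  refine (Finset.abs_sum_le_sum_abs _ _).trans ?_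
  calc ∑ i ∈ Finset.range (d + 1), |f.coeff i * x ^ i|
      ≤ ∑ _i ∈ Finset.range (d + 1), c * X ^ d := by
        refine Finset.sum_le_sum fun i hi => ?_
        rw [abs_mul, abs_pow]
        refine mul_le_mul (hc i) ?_ (by positivity) hc0
        calc |x| ^ i ≤ X ^ i := pow_le_pow_left₀ (abs_nonneg _) hx i
          _ ≤ X ^ d := pow_le_pow_right₀ hX (by have := Finset.mem_range.1 hi; omega)
    _ = c * ((d + 1) * X ^ d) := by
        rw [Finset.sum_const, Finset.card_range, nsmul_eq_mul]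
        push_cast; ring

theorem quot_close {G G1 H H1 U e B : ℝ} (hB : 0 < B) (hG : |G| ≤ U) (hG1 : |G1| ≤ U)
    (h : |G - H| ≤ e) (h1 : |G1 - H1| ≤ e) (hlow : B⁻¹ ≤ |G1|) (he : e ≤ (2 * B)⁻¹) :
    H1 ≠ 0 ∧ |G / G1 - H / H1| ≤ 4 * U * e * B ^ 2 := by
  have hB' : (2 * B)⁻¹ = B⁻¹ / 2 := by rw [mul_inv]; ring
  have hH1 : (2 * B)⁻¹ ≤ |H1| := by
    have := abs_sub_abs_le_abs_sub G1 H1
    rw [hB'] at he ⊢
    linarith
  have hpos : 0 < |H1| := lt_of_lt_of_le (by positivity) hH1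
  have hpos' : 0 < |G1| := lt_of_lt_of_le (by positivity) hlow
  have hne : H1 ≠ 0 := abs_pos.1 hpos
  have hne' : G1 ≠ 0 := abs_pos.1 hpos'
  refine ⟨hne, ?_⟩
  rw [div_sub_div _ _ hne' hne, abs_div, abs_mul, div_le_iff₀ (by positivity)]
  have hU : 0 ≤ U := (abs_nonneg _).trans hG
  have e1 : |G * H1 - G1 * H| ≤ 2 * (U * e) := by
    have : G * H1 - G1 * H = G1 * (G - H) - G * (G1 - H1) := by ring
    rw [this]
    refine (abs_sub _ _).trans ?_
    rw [abs_mul, abs_mul]
    have h2 := mul_le_mul hG1 h (abs_nonneg _) hU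
    have h3 := mul_le_mul hG h1 (abs_nonneg _) hU
    linarith
  have e2 : B⁻¹ * (2 * B)⁻¹ ≤ |G1| * |H1| := mul_le_mul hlow hH1 (by positivity) hpos'.le
  have he0 : 0 ≤ e := (abs_nonneg _).trans h
  calc |G * H1 - G1 * H| ≤ 2 * (U * e) := e1
    _ = 4 * U * e * B ^ 2 * (B⁻¹ * (2 * B)⁻¹) := by field_simp; ring
    _ ≤ 4 * U * e * B ^ 2 * (|G1| * |H1|) := by gcongr

/-- The cost of a start value. -/
def L0 (D K : ℕ) : ℕ := 2 * (K + 2) + 5 + 2 * (D + 10) + 2

theorem start {g : ℝ[X]} {D : ℕ} (hD1 : 1 ≤ D) {θ B E : ℝ} {K T : ℕ}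
    (hB : B = 2 ^ 2 ^ K) (hDB : 1024 * (D:ℝ) ≤ B) (hE0 : 0 ≤ E) (hE : E * (1024 * D * B) ≤ 1)
    (hg : Rg g θ) (hθ : |θ| ≤ B) {l : List ℝ} (hl : Rt False l) (h0 : (0:ℝ) ∈ l)
    (hZ : ∀ z ∈ ZZ g, B⁻¹ ≤ |θ - z| ∧ |z| ≤ B ∧ ∃ l', Xt (Rt False) l T l' ∧
      ∃ y, (y = 1 ∨ y ∈ l') ∧ |z - y| ≤ E) :
    ∃ α b x₀ l', Nice g α b θ ∧ B⁻¹ ≤ θ - α ∧ θ - α ≤ 64 * D * B ∧ x₀ < b ∧
      θ + (256 * D * B)⁻¹ ≤ x₀ ∧ D / (θ - α) * (x₀ - θ) ≤ 1 / 8 ∧
      Xt (Rt False) l (T + L0 D K) l' ∧ (x₀ = 1 ∨ x₀ ∈ l') := by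
  have hDR : (1:ℝ) ≤ D := by exact_mod_cast hD1
  have hB1 : 1 ≤ B := by linarith
  have hB0 : 0 < B := by linarith
  have hP := Rt.cl False
  -- upper bound for the range of powers of two
  have hK2 : 1024 * D * B ≤ 2 ^ 2 ^ (K + 2) := by
    have e1 : (2:ℝ) ^ 2 ^ (K + 2) = (B ^ 2) ^ 2 := by
      rw [hB, show K + 2 = K + 1 + 1 by ring, dexp_succ, dexp_succ]
    rw [e1]
    calc 1024 * D * B ≤ B * B := by gcongr
      _ = B ^ 2 := by ring
      _ ≤ (B ^ 2) ^ 2 := by
          have : 1 ≤ B ^ 2 := one_le_pow₀ hB1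
          nlinarith
  have hKi : ((2:ℝ) ^ 2 ^ (K + 2))⁻¹ ≤ (1024 * D * B)⁻¹ := inv_anti₀ (by positivity) hK2
  rw [abs_le] at hθ
  by_cases h2 : derivative (derivative g) = 0
  · -- linear polynomials
    have hno : ∀ z, z ∉ ZZ g := by
      rintro z ⟨j, hj1, hj2, hj3⟩
      rcases Nat.lt_or_ge 1 j with h | h
      · apply hj2
        obtain ⟨i, rfl⟩ := Nat.exists_eq_add_of_le h
        rw [show (1:ℕ).succ + i = i + 1 + 1 by omega, Function.iterate_succ_apply,
          Function.iterate_succ_apply, h2]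
        exact Polynomial.iterate_derivative_zero
      · have : j = 1 := by omega
        subst this
        simp only [Function.iterate_one] at hj2 hj3
        have h3 : (derivative g).natDegree = 0 := Polynomial.derivative_eq_zero.1 h2
        rw [Polynomial.eq_C_of_natDegree_eq_zero h3] at hj2 hj3
        rw [eval_C] at hj3
        rw [hj3] at hj2
        simp at hj2
    obtain ⟨l', x1, p, y1, y2, y3⟩ := ext_pow2 hl (J := K + 2) (t := 2 * B)
      (hKi.trans (by
        calc (1024 * D * B)⁻¹ ≤ 1 := inv_le_one_of_one_le₀ (by nlinarith)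
          _ ≤ 2 * B := by linarith)) (le_trans (by nlinarith) hK2)
    refine ⟨θ - 64 * D * B, θ + 100 * B, p, l', hg.nice ?_ (by linarith) (fun z hz => absurd hz (hno z)),
      ?_, by linarith, by linarith, ?_, ?_, x1.le (by rw [L0]; omega), y1⟩
    · have : 0 < 64 * (D:ℝ) * B := by positivity
      linarith
    · have : B⁻¹ ≤ 1 := inv_le_one_of_one_le₀ hB1
      have : 1 ≤ 64 * (D:ℝ) * B := by nlinarith
      linarith
    · have : (256 * (D:ℝ) * B)⁻¹ ≤ 1 := inv_le_one_of_one_le₀ (by nlinarith)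
      linarith
    · have e1 : (D:ℝ) / (θ - (θ - 64 * D * B)) = (64 * B)⁻¹ := by
        rw [show θ - (θ - 64 * D * B) = D * (64 * B) by ring]
        field_simp
      rw [e1, inv_mul_le_iff₀ (by positivity)]
      linarith
  · -- degree at least two
    obtain ⟨α, hα1, hα2, hα3⟩ := next_left hg h2
    obtain ⟨b, hb1, hb2, hb3⟩ := next_right hg (64 * B) (by positivity)
    have hN : Nice g α b θ := hg.nice hα1 hb1 (by
      intro z hz hz'
      rcases hα3 z hz with h | h
      · linarith [hz'.1]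
      · rcases h.eq_or_lt with h | h
        · exact hg.not_mem (h ▸ hz)
        · rcases hb3 z hz with h' | h'
          · linarith
          · linarith [hz'.2])
    obtain ⟨za1, za2, la, xa, ya, ya1, ya2⟩ := hZ α hα2
    rw [abs_of_pos (by linarith)] at za1
    rw [abs_le] at za2 ya2
    set A := θ - α with hA
    have hA0 : 0 < A := by linarith
    have hA2 : A ≤ 2 * B := by linarith
    have hEA : E ≤ A / (1024 * D) := by
      rw [le_div_iff₀ (by positivity)]
      have e1 : E * (1024 * D) = E * (1024 * D * B) * B⁻¹ := by field_simp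
      rw [e1]
      calc E * (1024 * D * B) * B⁻¹ ≤ 1 * B⁻¹ := by gcongr
        _ ≤ A := by linarith
    have hADle : A / (1024 * D) ≤ A := div_le_self hA0.le (by linarith)
    have hDi : (256 * (D:ℝ) * B)⁻¹ = B⁻¹ / (256 * D) := by field_simp
    by_cases hbA : b - θ ≤ A / (16 * D)
    · -- start at b
      have hbZ : b ∈ ZZ g := by
        rcases hb2 with h | h
        · exact h
        · exfalso
          rw [h] at hbA
          have : A / (16 * D) ≤ A := div_le_self hA0.le (by linarith)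
          linarith
      obtain ⟨zb1, zb2, lb, xb, yb, yb1, yb2⟩ := hZ b hbZ
      rw [abs_sub_comm, abs_of_pos (by linarith)] at zb1
      rw [abs_le] at yb2
      obtain ⟨l1, x1, p, y1, y2, y3⟩ := ext_pow2 xb.1 (J := K + 2) (t := (8 * B)⁻¹)
        (hKi.trans (inv_anti₀ (by positivity) (by nlinarith)))
        (le_trans (inv_le_one_of_one_le₀ (by linarith)) (one_le_pow₀ (by norm_num)))
      obtain ⟨l2, x2, z2⟩ := ext_sub hP x1.1 (x1.mem yb1) y1
      have e8 : (8 * B)⁻¹ = B⁻¹ / 8 := by rw [mul_inv]; ring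
      rw [e8] at y2 y3
      have hEB : E ≤ B⁻¹ / 1024 := by
        have e1 : E * 1024 = E * (1024 * 1 * B) * B⁻¹ := by field_simp
        rw [le_div_iff₀ (by norm_num), e1]
        calc E * (1024 * 1 * B) * B⁻¹ ≤ E * (1024 * D * B) * B⁻¹ := by gcongr
          _ ≤ 1 * B⁻¹ := by gcongr
          _ = B⁻¹ := one_mul _
      refine ⟨α, b, yb - p, l2, hN, by linarith, by nlinarith, ?_, ?_, ?_,
        ((xb.trans x1).trans x2).le (by rw [L0]; omega), z2⟩
      · have : 0 < B⁻¹ := by positivity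
        linarith [yb2.1]
      · rw [hDi]
        have h3 : B⁻¹ / (256 * D) ≤ B⁻¹ / 256 := by
          gcongr
          linarith
        linarith [yb2.2]
      · have h3 : yb - p - θ ≤ A / (8 * D) := by
          have : A / (16 * D) + A / (1024 * D) ≤ A / (8 * D) := by
            have h5 : A / (16 * D) = (A / D) / 16 := by field_simp
            have h6 : A / (1024 * D) = (A / D) / 1024 := by field_simp
            have h7 : A / (8 * D) = (A / D) / 8 := by field_simp
            have : 0 < A / D := by positivity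
            rw [h5, h6, h7]; linarith
          have : 0 < B⁻¹ := by positivity
          linarith [yb2.1]
        calc D / A * (yb - p - θ) ≤ D / A * (A / (8 * D)) := by gcongr
          _ = 1 / 8 := by field_simp
    · -- start from α
      push Not at hbA
      obtain ⟨l1, x1, p, y1, y2, y3⟩ := ext_pow2 xa.1 (J := K + 2) (t := A / (256 * D))
        (hKi.trans (by
          rw [show (1024 * (D:ℝ) * B)⁻¹ = B⁻¹ / (1024 * D) by field_simp]
          gcongr <;> linarith))
        (le_trans (le_trans (div_le_self hA0.le (by linarith)) (by nlinarith)) hK2)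
      have hp0 : 0 < p := lt_of_lt_of_le (by positivity) y2
      set s : ℝ := θ - ya + A / (64 * D) with hs
      have hA64 : A / (64 * D) = (A / D) / 64 := by field_simp
      have hA256 : A / (256 * D) = (A / D) / 256 := by field_simp
      have hA16 : A / (16 * D) = (A / D) / 16 := by field_simp
      have hA1024 : A / (1024 * D) = (A / D) / 1024 := by field_simp
      have hAD : 0 < A / D := by positivity
      have hADA : A / D ≤ A := div_le_self hA0.le hDR
      rw [hA1024] at hEA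
      rw [hA256] at y2 y3
      have hs0 : 0 < s := by rw [hs, hA64]; linarith [ya2.1, ya2.2]
      obtain ⟨i, hi⟩ : ∃ i : ℕ, i = ⌈s / p⌉₊ := ⟨_, rfl⟩
      have hi1 : s ≤ i * p := by
        have := Nat.le_ceil (s / p)
        rw [← hi, div_le_iff₀ hp0] at this
        exact this
      have hi2 : i * p ≤ s + p := by
        have := (Nat.ceil_lt_add_one (show 0 ≤ s / p by positivity)).le
        rw [← hi] at this
        calc (i:ℝ) * p ≤ (s / p + 1) * p := by gcongr
          _ = s + p := by field_simp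
      have hi3 : i < 2 ^ (D + 10) := by
        have h3 : (i:ℝ) ≤ 600 * D := by
          have h4 : (i:ℝ) * p ≤ (600 * D) * p := by
            have : s + p ≤ 2 * A := by rw [hs, hA64]; linarith [ya2.1, ya2.2]
            have h5 : 2 * A ≤ 600 * D * p := by
              have : A / D / 256 * (600 * D) ≤ p * (600 * D) := by gcongr
              have h6 : A / D / 256 * (600 * D) = A * (600 / 256) := by field_simp
              rw [h6] at this
              nlinarith
            linarith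
          exact le_of_mul_le_mul_right h4 hp0
        have h4 : i ≤ 600 * D := by exact_mod_cast h3
        have h5 : D < 2 ^ D := Nat.lt_two_pow_self
        have h6 : 2 ^ (D + 10) = 2 ^ D * 1024 := by ring
        omega
      obtain ⟨l2, x2, z2⟩ := ext_nat hP x1.1 (x1.2.2 0 (xa.2.2 0 h0)) (D + 10) i hi3
      obtain ⟨l3, x3, z3⟩ := ext_mul hP x2.1 z2 (x2.mem y1)
      obtain ⟨l4, x4, z4⟩ := ext_add hP x3.1 (x3.mem (x2.mem (x1.mem ya1))) z3
      have hx : ya + i * p - θ ≤ A / D / 64 + A / D / 128 := by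
        rw [hs, hA64] at hi2
        linarith
      have hx' : A / D / 64 ≤ ya + i * p - θ := by
        rw [hs, hA64] at hi1
        linarith
      refine ⟨α, b, ya + i * p, l4, hN, by linarith, by nlinarith, ?_, ?_, ?_,
        ((((xa.trans x1).trans x2).trans x3).trans x4).le (by rw [L0]; omega), z4⟩
      · rw [hA16] at hbA
        linarith
      · rw [hDi]
        have h3 : B⁻¹ / (256 * D) ≤ A / D / 64 := by
          rw [← hA64]
          gcongr <;> linarith
        linarith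
      · have h3 : ya + i * p - θ ≤ A / (8 * D) := by
          have h8 : A / (8 * D) = (A / D) / 8 := by field_simp
          rw [h8]
          linarith
        calc D / A * (ya + i * p - θ) ≤ D / A * (A / (8 * D)) := by gcongr
          _ = 1 / 8 := by field_simp

end Pool.Agent.SLPQ
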