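import Pool.Agent.Lib_helper53.SLPD.Step

/-!
# Approximation of all roots of all derivatives
-/

namespace Pool.Agent.SLPQ

open Polynomial

/-- Bounds for the derivatives of `q` and their roots. -/
structure Bdd (q : ℝ[X]) (B : ℝ) : Prop where
  coeff : ∀ j n, |(derivative^[j] q).coeff n| ≤ B
  root : ∀ j, derivative^[j] q ≠ 0 → ∀ z, (derivative^[j] q).eval z = 0 → |z| ≤ B
  sep : ∀ i j, derivative^[i] q ≠ 0 → derivative^[j] q ≠ 0 → ∀ z w,
    (derivative^[i] q).eval z = 0 → (derivative^[j] q).eval w = 0 → z ≠ w → B⁻¹ ≤ |z - w|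
  val : ∀ i j, derivative^[i] q ≠ 0 → ∀ z, (derivative^[i] q).eval z = 0 →
    (derivative^[j] q).eval z ≠ 0 → B⁻¹ ≤ |(derivative^[j] q).eval z|

/-- All roots of all derivatives. -/
theorem roots_rec {q f : ℝ[X]} {D K k : ℕ} {B δ ρ E : ℝ} (hN : Nm D K B δ ρ E)
    (hE : 64 * B * (8 ^ 2 ^ k)⁻¹ + 4 * ρ ≤ E) (hb : Bdd q B) (hq : q.natDegree ≤ D)
    (hf : f.natDegree ≤ D)
    (he : ∀ j n, |(derivative^[j] q).coeff n - (derivative^[j] f).coeff n| ≤ δ)
    {l : List ℝ} (h0 : (0:ℝ) ∈ l)
    (hc : ∀ j ≤ D + 1, ∀ n, (derivative^[j] f).coeff n = 1 ∨ (derivative^[j] f).coeff n ∈ l)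
    (hρ : ρ = 1 ∨ ρ ∈ l) : ∀ m i, D ≤ i + m → derivative^[i] q ≠ 0 →
      ∀ θ, (derivative^[i] q).eval θ = 0 → ∀ l₁, Rt False l₁ → (∀ a ∈ l, a ∈ l₁) →
      ∃ l', Xt (Rt False) l₁ (m * L1 D K k) l' ∧ ∃ y, (y = 1 ∨ y ∈ l') ∧ |θ - y| ≤ E := by
  intro m
  induction m with
  | zero =>
    intro i hi hne θ hθ
    exfalso
    have h1 : (derivative^[i] q).natDegree = 0 := by
      have := Polynomial.natDegree_iterate_derivative q i
      omega
    rw [Polynomial.eq_C_of_natDegree_eq_zero h1] at hne hθ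
    rw [eval_C] at hθ
    rw [hθ] at hne
    simp at hne
  | succ m ih =>
    intro i hi hne θ hθ l₁ hl₁ hsub
    by_cases hex : ∃ j, i < j ∧ derivative^[j] q ≠ 0 ∧ (derivative^[j] q).eval θ = 0
    · obtain ⟨j, hij, hj, hz⟩ := hex
      obtain ⟨l', x1, y, y1, y2⟩ := ih j (by omega) hj θ hz l₁ hl₁ hsub
      exact ⟨l', x1.le (Nat.mul_le_mul_right _ (by omega)), y, y1, y2⟩
    · push Not at hex
      have hiD : i < D := by
        by_contra hcon
        push Not at hcon
        have h1 : (derivative^[i] q).natDegree = 0 := by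
          have := Polynomial.natDegree_iterate_derivative q i
          omega
        rw [Polynomial.eq_C_of_natDegree_eq_zero h1] at hne hθ
        rw [eval_C] at hθ
        rw [hθ] at hne
        simp at hne
      have hg1 : derivative^[i + 1] q ≠ 0 := by
        intro hcon
        rw [Function.iterate_succ_apply'] at hcon
        have h1 := Polynomial.derivative_eq_zero.1 hcon
        rw [Polynomial.eq_C_of_natDegree_eq_zero h1] at hne hθ
        rw [eval_C] at hθ
        rw [hθ] at hne
        simp at hne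
      have hval0 := hex (i + 1) (by omega) hg1
      have hval := hb.val i (i + 1) hne θ hθ hval0
      have hp : Pr (derivative^[i] q) (derivative^[i] f) D B δ := by
        refine ⟨(natDegree_iter_le q i).trans hq, (natDegree_iter_le f i).trans hf, hb.coeff i, ?_,
          he i, ?_⟩
        · have := hb.coeff (i + 1)
          rwa [Function.iterate_succ_apply'] at this
        · have := he (i + 1)
          rwa [Function.iterate_succ_apply', Function.iterate_succ_apply'] at this
      have hZ : HZ (derivative^[i] q) θ B E (m * L1 D K k) l₁ := by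
        rintro z ⟨j, hj1, hj2, hj3⟩
        rw [← Function.iterate_add_apply] at hj2 hj3
        refine ⟨hb.sep i (j + i) hne hj2 θ z hθ hj3 ?_, hb.root (j + i) hj2 z hj3, ?_⟩
        · rintro rfl
          exact hex (j + i) (by omega) hj2 hj3
        · intro l₂ hl₂ hsub2
          exact ih (j + i) (by omega) hj2 z hj3 l₂ hl₂ (fun a ha => hsub2 a (hsub a ha))
      have hc1 := hc (i + 1) (by omega)
      rw [Function.iterate_succ_apply'] at hc1
      rw [Function.iterate_succ_apply'] at hval
      obtain ⟨l', x1, y, y1, y2⟩ := step hN hp hθ (by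
          intro j hj1 hj2
          rw [← Function.iterate_add_apply] at hj2 ⊢
          exact hex (j + i) (by omega) hj2) (hb.root i hne θ hθ) hval hl₁ (hsub 0 h0) hZ
        (fun n => mem1_of (hc i (by omega) n) hsub) (fun n => mem1_of (hc1 n) hsub)
        (mem1_of hρ hsub) k
      exact ⟨l', x1.le (by rw [add_mul m 1, one_mul]), y, y1, y2.trans hE⟩

/-- The error of the derivatives. -/
theorem iter_coeff_err {q f : ℝ[X]} {D : ℕ} (hD : 1 ≤ D) {δ : ℝ}
    (hq : q.natDegree ≤ D) (hf : f.natDegree ≤ D) (he : ∀ n, |q.coeff n - f.coeff n| ≤ δ) (j n : ℕ) :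
    |(derivative^[j] q).coeff n - (derivative^[j] f).coeff n| ≤ D ^ D * δ := by
  have hδ : 0 ≤ δ := (abs_nonneg _).trans (he 0)
  rw [Polynomial.coeff_iterate_derivative, Polynomial.coeff_iterate_derivative, nsmul_eq_mul,
    nsmul_eq_mul, ← mul_sub, abs_mul]
  rcases Nat.lt_or_ge D (n + j) with h | h
  · rw [Polynomial.coeff_eq_zero_of_natDegree_lt (by omega),
      Polynomial.coeff_eq_zero_of_natDegree_lt (by omega)]
    simp only [sub_self, abs_zero, mul_zero]
    positivity
  · refine mul_le_mul ?_ (he _) (abs_nonneg _) (by positivity)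
    rw [Nat.abs_cast]
    have h1 : (n + j).descFactorial j ≤ D ^ D :=
      calc (n + j).descFactorial j ≤ (n + j) ^ j := Nat.descFactorial_le_pow _ _
        _ ≤ D ^ j := Nat.pow_le_pow_left h _
        _ ≤ D ^ D := Nat.pow_le_pow_right hD (by omega)
    exact_mod_cast h1

end Pool.Agent.SLPQ
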