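import Pool.Agent.Lib_helper53.SLPQ.RC
import Pool.Agent.Lib_helper53.SLPD.Defs

/-!
# Computations with real roots of polynomials: separation
-/

namespace Pool.Agent.SLPQ

open Matrix Polynomial

theorem card_aux (n D : ℕ) : (D + 1) ^ n ≤ 2 ^ (D * n) := by
  rw [pow_mul]
  exact Nat.pow_le_pow_left (Nat.succ_le_of_lt Nat.lt_two_pow_self) n

theorem exp_aux (n D : ℕ) : D * n ≤ 4 ^ (n + D) := by
  have h1 : n < 2 ^ n := Nat.lt_two_pow_self
  have h2 : D < 2 ^ D := Nat.lt_two_pow_self
  calc D * n ≤ 2 ^ D * 2 ^ n := Nat.mul_le_mul h2.le h1.le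
    _ = 2 ^ (n + D) := by rw [← pow_add, add_comm]
    _ ≤ 4 ^ (n + D) := Nat.pow_le_pow_left (by norm_num) _

/-- All numbers of such a computation are eigenvalues of integer matrices with one common
eigenvector. -/
theorem Al.mat {D : ℕ} {l : List ℝ} (hl : Al D False l) :
    ∃ (ι : Type) (_ : Fintype ι) (_ : DecidableEq ι)
    (w : ι → ℝ), Fintype.card ι ≤ (D + 1) ^ l.length ∧ w ≠ 0 ∧ ∀ a, (a = 1 ∨ a ∈ l) →
      ∃ M : Matrix ι ι ℤ, (M.map (Int.cast : ℤ → ℝ)) *ᵥ w = a • w ∧
        ∀ i j, |(M i j : ℝ)| ≤ 2 ^ 4 ^ (l.length + D) := by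
  induction hl with
  | nil =>
    refine ⟨Unit, inferInstance, inferInstance, fun _ => 1, by simp, ?_, ?_⟩
    · intro h
      have := congrFun h ()
      simp at this
    · intro a ha
      have ha : a = 1 := by simpa using ha
      subst ha
      refine ⟨1, ?_, ?_⟩
      · ext i
        simp [Matrix.mulVec, dotProduct]
      · intro i j
        have : (1:ℝ) ≤ 2 ^ 4 ^ (([] : List ℝ).length + D) := one_le_pow₀ (by norm_num)
        simpa using this
  | div hq => exact hq.elim
  | @op l o a b hl ha hb ih =>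
    obtain ⟨ι, _, _, w, hcard, hw, hM⟩ := ih
    refine ⟨ι, inferInstance, inferInstance, w, ?_, hw, ?_⟩
    · rw [List.length_cons, pow_succ]
      exact hcard.trans (Nat.le_mul_of_pos_right _ (by omega))
    · obtain ⟨Ma, hMa, hMa2⟩ := hM a ha
      obtain ⟨Mb, hMb, hMb2⟩ := hM b hb
      have hlen : (o.app a b :: l).length + D = (l.length + D) + 1 := by
        rw [List.length_cons]; ring
      have hpow : (2:ℝ) ^ 4 ^ ((l.length + D) + 1) = ((2 ^ 4 ^ (l.length + D)) ^ 2) ^ 2 := by
        rw [← pow_mul, ← pow_mul, pow_succ]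
      have hH2 : (2:ℝ) ≤ 2 ^ 4 ^ (l.length + D) := by
        calc (2:ℝ) = 2 ^ 1 := by norm_num
          _ ≤ _ := pow_le_pow_right₀ (by norm_num) (Nat.one_le_pow _ _ (by norm_num))
      have hcardR : (Fintype.card ι : ℝ) ≤ 2 ^ 4 ^ (l.length + D) := by
        have h1 : (Fintype.card ι : ℝ) ≤ (2:ℝ) ^ (D * l.length) := by
          exact_mod_cast hcard.trans (card_aux _ _)
        exact h1.trans (pow_le_pow_right₀ (by norm_num) (exp_aux _ _))
      rw [hlen, hpow]
      set H : ℝ := 2 ^ 4 ^ (l.length + D) with hH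
      have hH3 : 2 * H ≤ H ^ 2 := by nlinarith
      have hH4 : H ^ 2 ≤ (H ^ 2) ^ 2 := by
        have : 1 ≤ H ^ 2 := by nlinarith
        nlinarith
      have hold : ∀ c, (c = 1 ∨ c ∈ l) → ∃ M : Matrix ι ι ℤ,
          (M.map (Int.cast : ℤ → ℝ)) *ᵥ w = c • w ∧
          ∀ i j, |(M i j : ℝ)| ≤ (H ^ 2) ^ 2 := by
        intro c hc
        obtain ⟨M, h1, h2⟩ := hM c hc
        exact ⟨M, h1, fun i j => (h2 i j).trans (by linarith)⟩
      intro c hc
      rcases mem1_cons hc with hc' | rfl
      · exact hold c hc'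
      · cases o with
        | add =>
          refine ⟨Ma + Mb, ?_, fun i j => ?_⟩
          · rw [Matrix.map_add _ (by intro x y; push_cast; ring), Matrix.add_mulVec, hMa, hMb,
              Op.app, add_smul]
          · rw [Matrix.add_apply]
            push_cast
            have := abs_add_le (Ma i j : ℝ) (Mb i j)
            have := hMa2 i j
            have := hMb2 i j
            linarith
        | sub =>
          refine ⟨Ma - Mb, ?_, fun i j => ?_⟩
          · rw [Matrix.map_sub _ (by intro x y; push_cast; ring), Matrix.sub_mulVec, hMa, hMb,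
              Op.app, sub_smul]
          · rw [Matrix.sub_apply]
            push_cast
            have := abs_sub (Ma i j : ℝ) (Mb i j)
            have := hMa2 i j
            have := hMb2 i j
            linarith
        | mul =>
          refine ⟨Ma * Mb, ?_, fun i j => ?_⟩
          · have e1 : (Ma * Mb).map (Int.cast : ℤ → ℝ) =
              (Ma.map (Int.cast : ℤ → ℝ)) * (Mb.map (Int.cast : ℤ → ℝ)) :=
              Matrix.map_mul (f := Int.castRingHom ℝ)
            rw [e1, ← Matrix.mulVec_mulVec, hMb, Matrix.mulVec_smul, hMa, smul_smul, Op.app,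
              mul_comm]
          · rw [Matrix.mul_apply]
            push_cast
            refine (Finset.abs_sum_le_sum_abs _ _).trans ?_
            calc ∑ k, |(Ma i k : ℝ) * (Mb k j : ℝ)|
                ≤ ∑ _k : ι, H * H := by
                  refine Finset.sum_le_sum fun k _ => ?_
                  rw [abs_mul]
                  exact mul_le_mul (hMa2 i k) (hMb2 k j) (abs_nonneg _) (by positivity)
              _ = Fintype.card ι * H ^ 2 := by simp [pow_two]
              _ ≤ H * H ^ 2 := by gcongr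
              _ ≤ (H ^ 2) ^ 2 := by
                  have : H ≤ H ^ 2 := by nlinarith
                  nlinarith [sq_nonneg H]
  | @root l θ p hl hm hd hp h ih =>
    obtain ⟨ι, _, _, w, hcard, hw, hM⟩ := ih
    choose! Mf hMf1 hMf2 using hM
    have hN : p.natDegree ≠ 0 := by
      intro h0
      have : p = 1 := (Polynomial.Monic.natDegree_eq_zero hm).1 h0
      rw [this] at h
      simp at h
    set N := p.natDegree with hNd
    have hlen : (θ :: l).length + D = (l.length + D) + 1 := by rw [List.length_cons]; ring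
    have hle : (2:ℝ) ^ 4 ^ (l.length + D) ≤ 2 ^ 4 ^ ((l.length + D) + 1) :=
      pow_le_pow_right₀ (by norm_num) (Nat.pow_le_pow_right (by norm_num) (by omega))
    have hone : (1:ℝ) ≤ 2 ^ 4 ^ ((l.length + D) + 1) := one_le_pow₀ (by norm_num)
    refine ⟨ι × Fin N, inferInstance, inferInstance, fun x => w x.1 * θ ^ (x.2 : ℕ), ?_, ?_, ?_⟩
    · rw [List.length_cons, pow_succ, Fintype.card_prod, Fintype.card_fin]
      exact Nat.mul_le_mul hcard (by omega)
    · intro h'
      apply hw
      ext i
      have := congrFun h' (i, ⟨0, by omega⟩)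
      simpa using this
    · intro c hc
      rw [hlen]
      rcases mem1_cons hc with hc' | rfl
      · refine ⟨fun x y => if x.2 = y.2 then Mf c x.1 y.1 else 0, ?_, ?_⟩
        · ext ⟨i, j⟩
          have h1 := congrFun (hMf1 c hc') i
          simp only [Matrix.mulVec, dotProduct, Matrix.map_apply, Pi.smul_apply, smul_eq_mul]
            at h1 ⊢
          rw [Fintype.sum_prod_type]
          have h2 : ∀ i' : ι, ∑ j' : Fin N, (((if j = j' then Mf c i i' else 0 : ℤ)) : ℝ) *
              (w i' * θ ^ (j' : ℕ)) = (Mf c i i' : ℝ) * w i' * θ ^ (j : ℕ) := by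
            intro i'
            rw [Finset.sum_eq_single j]
            · simp; ring
            · intro b _ hb
              rw [if_neg (Ne.symm hb)]
              simp
            · intro hj
              exact absurd (Finset.mem_univ j) hj
          rw [Finset.sum_congr rfl fun i' _ => h2 i', ← Finset.sum_mul, h1]
          ring
        · rintro ⟨i, j⟩ ⟨i', j'⟩
          show |((if j = j' then Mf c i i' else 0 : ℤ) : ℝ)| ≤ _
          split_ifs
          · exact (hMf2 c hc' i i').trans hle
          · simp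
      · refine ⟨fun x y => if (x.2 : ℕ) + 1 < N then
          (if (y.2 : ℕ) = (x.2 : ℕ) + 1 ∧ x.1 = y.1 then 1 else 0) else
            - Mf (p.coeff (y.2 : ℕ)) x.1 y.1, ?_, ?_⟩
        · ext ⟨i, j⟩
          simp only [Matrix.mulVec, dotProduct, Matrix.map_apply, Pi.smul_apply, smul_eq_mul]
          rw [Fintype.sum_prod_type]
          by_cases hj : (j : ℕ) + 1 < N
          · simp only [hj, if_true]
            have h2 : ∀ i' : ι, ∑ j' : Fin N,
                (((if (j' : ℕ) = (j : ℕ) + 1 ∧ i = i' then 1 else 0 : ℤ)) : ℝ) *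
                (w i' * c ^ (j' : ℕ)) = if i = i' then w i' * c ^ ((j : ℕ) + 1) else 0 := by
              intro i'
              rw [Finset.sum_eq_single (⟨(j : ℕ) + 1, hj⟩ : Fin N)]
              · by_cases hi : i = i' <;> simp [hi]
              · intro b _ hb
                have : ¬ ((b : ℕ) = (j : ℕ) + 1 ∧ i = i') := by
                  rintro ⟨h1, -⟩
                  exact hb (Fin.ext h1)
                rw [if_neg this]
                simp
              · intro hj
                exact absurd (Finset.mem_univ _) hj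
            rw [Finset.sum_congr rfl fun i' _ => h2 i', Finset.sum_ite_eq]
            simp only [Finset.mem_univ, if_true]
            ring
          · simp only [hj, if_false]
            have hjN : (j : ℕ) + 1 = N := by have := j.2; omega
            rw [Finset.sum_comm]
            have h2 : ∀ j' : Fin N, ∑ i' : ι, ((-Mf (p.coeff (j' : ℕ)) i i' : ℤ) : ℝ) *
                (w i' * c ^ (j' : ℕ)) = -(p.coeff (j' : ℕ) * c ^ (j' : ℕ)) * w i := by
              intro j'
              have h1 := congrFun (hMf1 (p.coeff (j' : ℕ)) (hp _)) i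
              simp only [Matrix.mulVec, dotProduct, Matrix.map_apply, Pi.smul_apply,
                smul_eq_mul] at h1
              have h3 : ∀ i' : ι, ((-Mf (p.coeff (j' : ℕ)) i i' : ℤ) : ℝ) *
                  (w i' * c ^ (j' : ℕ)) =
                  -(((Mf (p.coeff (j' : ℕ)) i i' : ℤ) : ℝ) * w i') * c ^ (j' : ℕ) := by
                intro i'; push_cast; ring
              rw [Finset.sum_congr rfl fun i' _ => h3 i', ← Finset.sum_mul,
                Finset.sum_neg_distrib, h1]
              ring
            rw [Finset.sum_congr rfl fun j' _ => h2 j', ← Finset.sum_mul]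
            have h4 : p.eval c = ∑ j' : Fin N, p.coeff (j' : ℕ) * c ^ (j' : ℕ) + c ^ N := by
              rw [Polynomial.eval_eq_sum_range, Finset.sum_range_succ, ← hNd,
                Finset.sum_range (fun i => p.coeff i * c ^ i)]
              have : p.coeff N = 1 := hm.coeff_natDegree
              rw [this, one_mul]
            rw [h] at h4
            rw [Finset.sum_neg_distrib]
            have h5 : c * (w i * c ^ (j : ℕ)) = c ^ N * w i := by
              have h7 : c ^ N = c ^ ((j : ℕ) + 1) := by rw [hjN]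
              rw [h7, pow_succ]; ring
            rw [h5]
            have h6 : -∑ j' : Fin N, p.coeff (j' : ℕ) * c ^ (j' : ℕ) = c ^ N := by linarith
            rw [h6]
        · rintro ⟨i, j⟩ ⟨i', j'⟩
          show |((if (j : ℕ) + 1 < N then (if (j' : ℕ) = (j : ℕ) + 1 ∧ i = i' then 1 else 0) else
            - Mf (p.coeff (j' : ℕ)) i i' : ℤ) : ℝ)| ≤ _
          split_ifs
          · simpa using hone
          · simp
          · push_cast
            rw [abs_neg]
            exact (hMf2 _ (hp _) i i').trans hle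

/-- The exponent of the bounds. -/
def KS (D n : ℕ) : ℕ := 2 * (n + D + 1) + D * n

theorem KS_mono (D : ℕ) {n m : ℕ} (h : n ≤ m) : KS D n ≤ KS D m := by
  rw [KS, KS]
  have := Nat.mul_le_mul_left D h
  omega

theorem Al.bd {D : ℕ} {l : List ℝ} (hl : Al D False l) {a : ℝ} (ha : a = 1 ∨ a ∈ l) :
    |a| ≤ 2 ^ 2 ^ KS D l.length ∧ (a ≠ 0 → ((2:ℝ) ^ 2 ^ KS D l.length)⁻¹ ≤ |a|) := by
  obtain ⟨ι, _, _, w, hcard, hw, hM⟩ := hl.mat
  obtain ⟨M, h1, h2⟩ := hM a ha
  set s := l.length
  set d := Fintype.card ι with hd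
  have hdR : (d:ℝ) ≤ 2 ^ (D * s) := by exact_mod_cast hcard.trans (card_aux s D)
  have e1 : 1 + (d:ℝ) * 2 ^ 4 ^ (s + D) ≤ 2 ^ (D * s + 4 ^ (s + D) + 1) := by
    have : (d:ℝ) * 2 ^ 4 ^ (s + D) ≤ 2 ^ (D * s + 4 ^ (s + D)) := by
      rw [pow_add (2:ℝ)]; gcongr
    have h1 : (1:ℝ) ≤ 2 ^ (D * s + 4 ^ (s + D)) := one_le_pow₀ (by norm_num)
    rw [pow_succ]
    linarith
  have e0 : D * s + 4 ^ (s + D) + 1 ≤ 2 ^ (2 * (s + D + 1)) := by
    have h3 := exp_aux s D
    have h4 : 2 ^ (2 * (s + D + 1)) = 4 * 4 ^ (s + D) := by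
      rw [pow_mul]; norm_num; rw [pow_succ]; ring
    have h5 : 1 ≤ 4 ^ (s + D) := Nat.one_le_pow _ _ (by norm_num)
    omega
  have hbound : (1 + (d:ℝ) * 2 ^ 4 ^ (s + D)) ^ d ≤ 2 ^ 2 ^ KS D s := by
    have hc := hcard.trans (card_aux s D)
    calc (1 + (d:ℝ) * 2 ^ 4 ^ (s + D)) ^ d ≤ (2 ^ (D * s + 4 ^ (s + D) + 1)) ^ d :=
          pow_le_pow_left₀ (by positivity) e1 d
      _ ≤ (2 ^ (D * s + 4 ^ (s + D) + 1)) ^ 2 ^ (D * s) :=
          pow_le_pow_right₀ (one_le_pow₀ (by norm_num)) hc
      _ = 2 ^ ((D * s + 4 ^ (s + D) + 1) * 2 ^ (D * s)) := by rw [← pow_mul]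
      _ ≤ 2 ^ 2 ^ KS D s := by
          refine pow_le_pow_right₀ (by norm_num) ?_
          rw [KS, pow_add 2 (2 * (s + D + 1))]
          exact Nat.mul_le_mul_right _ e0
  constructor
  · -- size
    have h3 : ‖(a : ℂ)‖ ≤ d * 2 ^ 4 ^ (s + D) := by
      refine root_bound (M.map (Int.cast : ℤ → ℂ)) ?_ (a : ℂ) (fun i => (w i : ℂ)) ?_ ?_
      · intro i j
        rw [Matrix.map_apply]
        have := h2 i j
        simpa using this
      · intro h
        apply hw
        ext i
        have := congrFun h i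
        simpa using this
      · ext i
        have := congrFun h1 i
        simp only [Matrix.mulVec, dotProduct, Matrix.map_apply, Pi.smul_apply, smul_eq_mul]
          at this ⊢
        have h4 := congrArg (fun x : ℝ => (x : ℂ)) this
        push_cast at h4
        exact h4
    have h4 : |a| = ‖(a : ℂ)‖ := by simp
    rw [h4]
    refine h3.trans ?_
    have h5 : (d:ℝ) * 2 ^ 4 ^ (s + D) ≤ 2 ^ (D * s + 4 ^ (s + D) + 1) := by linarith
    refine h5.trans (pow_le_pow_right₀ (by norm_num) (e0.trans ?_))
    rw [KS]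
    exact Nat.pow_le_pow_right (by norm_num) (by omega)
  · intro ha0
    have h := sep_mat M h2 (by positivity) w hw a h1 ha0
    rw [inv_le_iff_one_le_mul₀ (by positivity)]
    calc (1:ℝ) ≤ |a| * (1 + (d:ℝ) * 2 ^ 4 ^ (s + D)) ^ d := h
      _ ≤ |a| * 2 ^ 2 ^ KS D s := by gcongr

end Pool.Agent.SLPQ
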