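import Pool.Agent.Lib_helper53.SLPD.Num

/-!
# Approximation of one real root
-/

namespace Pool.Agent.SLPQ

open Polynomial

/-- One step of Newton's iteration for `f`, shifted by `ρ`. -/
noncomputable def Nt (f : ℝ[X]) (ρ x : ℝ) : ℝ := x - f.eval x / (derivative f).eval x + ρ

theorem chain_iter {l : List ℝ} (hl : Rt False l) (h0 : (0:ℝ) ∈ l) {f : ℝ[X]} {D : ℕ}
    (hd : f.natDegree ≤ D) (hc : ∀ n, f.coeff n = 1 ∨ f.coeff n ∈ l)
    (hc' : ∀ n, (derivative f).coeff n = 1 ∨ (derivative f).coeff n ∈ l) {ρ x₀ : ℝ}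
    (hρ : ρ = 1 ∨ ρ ∈ l) (hx : x₀ = 1 ∨ x₀ ∈ l) (k : ℕ)
    (hne : ∀ i < k, (derivative f).eval ((Nt f ρ)^[i] x₀) ≠ 0) :
    ∃ l', Xt (Rt False) l (k * (6 * (D + 1) + 3)) l' ∧
      ((Nt f ρ)^[k] x₀ = 1 ∨ (Nt f ρ)^[k] x₀ ∈ l') := by
  have hP := Rt.cl False
  induction k with
  | zero => exact ⟨l, Xt.refl hl _, hx⟩
  | succ k ih =>
    obtain ⟨l1, x1, y1⟩ := ih fun i hi => hne i (by omega)
    have hk := hne k (by omega)
    rw [Function.iterate_succ_apply']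
    set y := (Nt f ρ)^[k] x₀ with hy
    obtain ⟨l2, x2, y2⟩ := ext_eval hP x1.1 (x1.2.2 0 h0) f hd (fun n => x1.mem (hc n)) y1
    obtain ⟨l3, x3, y3⟩ := ext_eval hP x2.1 (x2.2.2 0 (x1.2.2 0 h0)) (derivative f)
      ((Polynomial.natDegree_derivative_le f).trans (by omega : f.natDegree - 1 ≤ D))
      (fun n => x2.mem (x1.mem (hc' n))) (x2.mem y1)
    obtain ⟨l4, x4, y4⟩ := ext_div_rt x3.1 (x3.mem y2) y3 hk
    obtain ⟨l5, x5, y5⟩ := ext_sub hP x4.1 (x4.mem (x3.mem (x2.mem y1))) y4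
    obtain ⟨l6, x6, y6⟩ := ext_add hP x5.1 y5
      (x5.mem (x4.mem (x3.mem (x2.mem (x1.mem hρ)))))
    refine ⟨l6, (((((x1.trans x2).trans x3).trans x4).trans x5).trans x6).le ?_, y6⟩
    have : (k + 1) * (6 * (D + 1) + 3) = k * (6 * (D + 1) + 3) + (6 * (D + 1) + 3) := by ring
    omega

/-- The approximations of all roots of the derivatives needed for one step. -/
def HZ (g : ℝ[X]) (θ B E : ℝ) (T : ℕ) (l : List ℝ) : Prop :=
  ∀ z ∈ ZZ g, B⁻¹ ≤ |θ - z| ∧ |z| ≤ B ∧ ∀ l₁, Rt False l₁ → (∀ a ∈ l, a ∈ l₁) →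
    ∃ l', Xt (Rt False) l₁ T l' ∧ ∃ y, (y = 1 ∨ y ∈ l') ∧ |z - y| ≤ E

/-- The numerical data of one step. -/
structure Nm (D K : ℕ) (B δ ρ E : ℝ) : Prop where
  hD1 : 1 ≤ D
  hB : B = 2 ^ 2 ^ K
  hDB : 1024 * (D:ℝ) ≤ B
  hE0 : 0 ≤ E
  hE : E * (1024 * D * B) ≤ 1
  hδ : δ * ((D + 1) * (9 * B) ^ D) ≤ (2 * B)⁻¹
  hρ1 : 4 * (B * ((D + 1) * (9 * B) ^ D)) * (δ * ((D + 1) * (9 * B) ^ D)) * B ^ 2 ≤ ρ
  hρ2 : ρ * (1024 * D * B) ≤ 1

/-- The two polynomials: the exact one and the approximation. -/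
structure Pr (g f : ℝ[X]) (D : ℕ) (B δ : ℝ) : Prop where
  dg : g.natDegree ≤ D
  df : f.natDegree ≤ D
  b0 : ∀ n, |g.coeff n| ≤ B
  b1 : ∀ n, |(derivative g).coeff n| ≤ B
  e0 : ∀ n, |g.coeff n - f.coeff n| ≤ δ
  e1 : ∀ n, |(derivative g).coeff n - (derivative f).coeff n| ≤ δ

theorem stepA {g f : ℝ[X]} {D K T : ℕ} {θ B δ ρ E : ℝ} (hN : Nm D K B δ ρ E)
    (hp : Pr g f D B δ) (hg : Rg g θ) (hθ : |θ| ≤ B) (hval : B⁻¹ ≤ |(derivative g).eval θ|)
    {l : List ℝ} (hl : Rt False l) (h0 : (0:ℝ) ∈ l) (hZ : HZ g θ B E T l)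
    (hc : ∀ n, f.coeff n = 1 ∨ f.coeff n ∈ l)
    (hc' : ∀ n, (derivative f).coeff n = 1 ∨ (derivative f).coeff n ∈ l)
    (hρ : ρ = 1 ∨ ρ ∈ l) (k : ℕ) :
    ∃ l', Xt (Rt False) l (T + L0 D K + k * (6 * (D + 1) + 3)) l' ∧
      ∃ y, (y = 1 ∨ y ∈ l') ∧ |θ - y| ≤ 64 * B * (8 ^ 2 ^ k)⁻¹ + 4 * ρ := by
  obtain ⟨hD1, hB, hDB, hE0, hE, hδ, hρ1, hρ2⟩ := hN
  have hDR : (1:ℝ) ≤ D := by exact_mod_cast hD1
  have hB1 : 1 ≤ B := by linarith
  have hB0 : 0 < B := by linarith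
  have hδ0 : 0 ≤ δ := (abs_nonneg _).trans (hp.e0 0)
  set W : ℝ := (D + 1) * (9 * B) ^ D with hW
  have hW0 : 0 < W := by positivity
  have hρ0 : 0 ≤ ρ := le_trans (by positivity) hρ1
  obtain ⟨α, b, x₀, l1, hNi, hA1, hA2, hxb, hx1, hx2, x1, y1⟩ := start hD1 hB hDB hE0 hE hg hθ hl h0
    (T := T) (fun z hz => ⟨(hZ z hz).1, (hZ z hz).2.1, (hZ z hz).2.2 l hl (fun a ha => ha)⟩)
  have hA0 : 0 < θ - α := lt_of_lt_of_le (by positivity) hA1
  have hρ4 : 4 * ρ ≤ (256 * D * B)⁻¹ := by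
    have e1 : (256 * (D:ℝ) * B)⁻¹ = 4 * (1024 * D * B)⁻¹ := by
      rw [← div_eq_mul_inv, eq_div_iff (by positivity)]
      field_simp
      norm_num
    rw [e1]
    have : ρ ≤ (1024 * D * B)⁻¹ := by
      rw [← one_div, le_div_iff₀ (by positivity)]; exact hρ2
    linarith
  have hx3 : x₀ - θ ≤ 8 * B := by
    have e1 : (D:ℝ) / (θ - α) * (x₀ - θ) * ((θ - α) / D) ≤ 1 / 8 * ((θ - α) / D) := by gcongr
    have e2 : (D:ℝ) / (θ - α) * (x₀ - θ) * ((θ - α) / D) = x₀ - θ := by field_simp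
    have e3 : (θ - α) / D ≤ 64 * B := by
      rw [div_le_iff₀ (by linarith)]
      linarith
    linarith
  have hbx : ∀ x, θ ≤ x → x ≤ x₀ → |x| ≤ 9 * B := by
    intro x h1 h2
    rw [abs_le] at hθ ⊢
    constructor <;> linarith [hθ.1, hθ.2]
  have hsub : ∀ (p q : ℝ[X]), p.natDegree ≤ D → q.natDegree ≤ D →
      (∀ n, |p.coeff n - q.coeff n| ≤ δ) → ∀ x, |x| ≤ 9 * B → |p.eval x - q.eval x| ≤ δ * W := by
    intro p q h1 h2 h3 x hx
    rw [← eval_sub]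
    refine eval_bound ((Polynomial.natDegree_sub_le p q).trans (max_le h1 h2)) (by linarith)
      (fun n => ?_) hx
    rw [coeff_sub]
    exact h3 n
  have hdg := (Polynomial.natDegree_derivative_le g).trans
    (by have := hp.dg; omega : g.natDegree - 1 ≤ D)
  have hdf := (Polynomial.natDegree_derivative_le f).trans
    (by have := hp.df; omega : f.natDegree - 1 ≤ D)
  have hmain : ∀ x, θ ≤ x → x ≤ x₀ → (derivative f).eval x ≠ 0 ∧
      |g.eval x / (derivative g).eval x - f.eval x / (derivative f).eval x| ≤ ρ := by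
    intro x h1 h2
    have hx := hbx x h1 h2
    have hst := (hNi.step hp.dg h1 (lt_of_le_of_lt h2 hxb)).2.1
    have := quot_close (U := B * W) (e := δ * W) hB0
      (eval_bound hp.dg (by linarith) hp.b0 hx) (eval_bound hdg (by linarith) hp.b1 hx)
      (hsub g f hp.dg hp.df hp.e0 x hx) (hsub _ _ hdg hdf hp.e1 x hx) (hval.trans hst) hδ
    exact ⟨this.1, this.2.trans hρ1⟩
  have hΦ : ∀ x, θ ≤ x → x ≤ x₀ →
      |Nt f ρ x - (x - g.eval x / (derivative g).eval x + ρ)| ≤ ρ := by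
    intro x h1 h2
    have e1 : Nt f ρ x - (x - g.eval x / (derivative g).eval x + ρ) =
        g.eval x / (derivative g).eval x - f.eval x / (derivative f).eval x := by
      rw [Nt]; ring
    rw [e1]
    exact (hmain x h1 h2).2
  have hκ : (D:ℝ) / (θ - α) * ρ ≤ 1 / 32 := by
    have e1 : (D:ℝ) / (θ - α) ≤ D * B := by
      rw [div_le_iff₀ hA0]
      have : D * B * B⁻¹ ≤ D * B * (θ - α) := by gcongr
      rwa [mul_inv_cancel_right₀ hB0.ne'] at this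
    calc (D:ℝ) / (θ - α) * ρ ≤ D * B * ρ := by gcongr
      _ ≤ 1 / 32 := by nlinarith
  have hit := newton_iter hp.dg hD1 hNi (Φ := Nt f ρ) (x₀ := x₀) (ρ := ρ) (by linarith) hxb hx2
    hρ0 hκ hΦ
  obtain ⟨l2, x2, y2⟩ := chain_iter x1.1 (x1.2.2 0 h0) hp.df (fun n => x1.mem (hc n))
    (fun n => x1.mem (hc' n)) (x1.mem hρ) y1 k
    (fun i _ => (hmain _ (hit i).1 (hit i).2.1).1)
  refine ⟨l2, x1.trans x2, _, y2, ?_⟩
  obtain ⟨i1, -, i3⟩ := hit k
  rw [abs_sub_comm, abs_of_nonneg (by linarith)]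
  have e1 : (D:ℝ) / (θ - α) * ((Nt f ρ)^[k] x₀ - θ) * ((θ - α) / D) ≤
      ((8 ^ 2 ^ k)⁻¹ + 4 * (D / (θ - α) * ρ)) * ((θ - α) / D) := by gcongr
  have e2 : (D:ℝ) / (θ - α) * ((Nt f ρ)^[k] x₀ - θ) * ((θ - α) / D) = (Nt f ρ)^[k] x₀ - θ := by
    field_simp
  have e3 : ((8 ^ 2 ^ k)⁻¹ + 4 * (D / (θ - α) * ρ)) * ((θ - α) / D) =
      (8 ^ 2 ^ k)⁻¹ * ((θ - α) / D) + 4 * ρ := by
    field_simp
  have e4 : (θ - α) / D ≤ 64 * B := by
    rw [div_le_iff₀ (by linarith)]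
    linarith
  rw [e2, e3] at e1
  have e5 : (0:ℝ) < (8 ^ 2 ^ k)⁻¹ := by positivity
  have e6 : ((8:ℝ) ^ 2 ^ k)⁻¹ * ((θ - α) / D) ≤ (8 ^ 2 ^ k)⁻¹ * (64 * B) := by gcongr
  linarith

/-! ### reflection -/

theorem der_refl (f : ℝ[X]) : derivative (f.comp (-X)) = -((derivative f).comp (-X)) := by
  rw [derivative_comp]; simp

theorem iter_refl (f : ℝ[X]) (j : ℕ) :
    derivative^[j] (f.comp (-X)) = (C ((-1:ℝ) ^ j)) * (derivative^[j] f).comp (-X) := by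
  induction j with
  | zero => simp
  | succ j ih =>
    rw [Function.iterate_succ_apply', ih, derivative_C_mul, der_refl, Function.iterate_succ_apply']
    rw [pow_succ, C_mul, C_neg, C_1]; ring

theorem coeff_refl (f : ℝ[X]) (n : ℕ) : (f.comp (-X)).coeff n = (-1) ^ n * f.coeff n := by
  have : (-X : ℝ[X]) = C (-1) * X := by simp
  rw [this, comp_C_mul_X_coeff]
  ring

theorem natDegree_refl (f : ℝ[X]) : (f.comp (-X)).natDegree = f.natDegree := by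
  rw [natDegree_comp, natDegree_neg, natDegree_X, mul_one]

theorem eval_refl (f : ℝ[X]) (x : ℝ) : (f.comp (-X)).eval x = f.eval (-x) := by
  rw [eval_comp, eval_neg, eval_X]

theorem ZZ_refl {f : ℝ[X]} {z : ℝ} (h : z ∈ ZZ (f.comp (-X))) : -z ∈ ZZ f := by
  obtain ⟨j, h1, h2, h3⟩ := h
  rw [iter_refl] at h2 h3
  have hu : ((-1:ℝ) ^ j) ≠ 0 := pow_ne_zero _ (by norm_num)
  refine ⟨j, h1, fun hc => h2 ?_, ?_⟩
  · rw [hc]; simp
  · rw [eval_mul, eval_C, eval_refl] at h3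
    exact (mul_eq_zero.1 h3).resolve_left hu

theorem abs_refl (j : ℕ) (a : ℝ) : |(-1) ^ j * a| = |a| := by
  rw [abs_mul, abs_pow]; simp

theorem ext_refl {l : List ℝ} (hl : Rt False l) (h0 : (0:ℝ) ∈ l) {f : ℝ[X]} {D : ℕ}
    (hd : f.natDegree ≤ D) (hc : ∀ n, f.coeff n = 1 ∨ f.coeff n ∈ l) :
    ∃ l', Xt (Rt False) l (D + 1) l' ∧ ∀ n, -f.coeff n = 1 ∨ -f.coeff n ∈ l' := by
  have hP := Rt.cl False
  obtain ⟨l1, x1, y1⟩ := ext_family hl 1 (fun n => -f.coeff n) (D + 1) (by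
    intro j _ l₁ hl₁ hsub
    have := ext_sub hP hl₁ (Or.inr (hsub 0 h0)) (mem1_of (hc j) hsub)
    rwa [zero_sub] at this)
  refine ⟨l1, x1.le (by omega), fun n => ?_⟩
  rcases Nat.lt_or_ge n (D + 1) with h | h
  · exact y1 n h
  · rw [Polynomial.coeff_eq_zero_of_natDegree_lt (by omega), neg_zero]
    exact Or.inr (x1.2.2 0 h0)

/-- The cost of one root. -/
def L1 (D K k : ℕ) : ℕ := L0 D K + k * (6 * (D + 1) + 3) + 2 * (D + 1) + 2

/-- One root, all the roots of the derivatives being approximated. -/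
theorem step {g f : ℝ[X]} {D K T : ℕ} {θ B δ ρ E : ℝ} (hN : Nm D K B δ ρ E)
    (hp : Pr g f D B δ) (hroot : g.eval θ = 0)
    (honly : ∀ j, 1 ≤ j → derivative^[j] g ≠ 0 → (derivative^[j] g).eval θ ≠ 0)
    (hθ : |θ| ≤ B) (hval : B⁻¹ ≤ |(derivative g).eval θ|)
    {l : List ℝ} (hl : Rt False l) (h0 : (0:ℝ) ∈ l) (hZ : HZ g θ B E T l)
    (hc : ∀ n, f.coeff n = 1 ∨ f.coeff n ∈ l)
    (hc' : ∀ n, (derivative f).coeff n = 1 ∨ (derivative f).coeff n ∈ l)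
    (hρ : ρ = 1 ∨ ρ ∈ l) (k : ℕ) :
    ∃ l', Xt (Rt False) l (T + L1 D K k) l' ∧
      ∃ y, (y = 1 ∨ y ∈ l') ∧ |θ - y| ≤ 64 * B * (8 ^ 2 ^ k)⁻¹ + 4 * ρ := by
  have hB0 : 0 < B := by rw [hN.hB]; positivity
  have hne : (derivative g).eval θ ≠ 0 := abs_pos.1 (lt_of_lt_of_le (by positivity) hval)
  have hP := Rt.cl False
  by_cases hs : 0 ≤ (derivative g).eval θ * (derivative (derivative g)).eval θ
  · obtain ⟨l', x1, y, y1, y2⟩ := stepA hN hp ⟨hroot, honly, hs, hne⟩ hθ hval hl h0 hZ hc hc' hρ k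
    exact ⟨l', x1.le (by rw [L1]; omega), y, y1, y2⟩
  · push Not at hs
    obtain ⟨l1, x1, y1⟩ := ext_refl hl h0 hp.df hc
    obtain ⟨l2, x2, y2⟩ := ext_refl x1.1 (x1.2.2 0 h0)
      ((Polynomial.natDegree_derivative_le f).trans (by have := hp.df; omega : f.natDegree - 1 ≤ D))
      (fun n => x1.mem (hc' n))
    have x12 := x1.trans x2
    have hmul : ∀ (m : ℕ) (a : ℝ), (a = 1 ∨ a ∈ l2) → (-a = 1 ∨ -a ∈ l2) →
        ((-1) ^ m * a = 1 ∨ (-1) ^ m * a ∈ l2) := by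
      intro m a h1 h2
      rcases neg_one_pow_eq_or ℝ m with h | h
      · rw [h, one_mul]; exact h1
      · rw [h, neg_one_mul]; exact h2
    have hp' : Pr (g.comp (-X)) (f.comp (-X)) D B δ := by
      refine ⟨by rw [natDegree_refl]; exact hp.dg, by rw [natDegree_refl]; exact hp.df, ?_, ?_, ?_, ?_⟩
      · intro n
        rw [coeff_refl, abs_refl]; exact hp.b0 n
      · intro n
        rw [der_refl, coeff_neg, abs_neg, coeff_refl, abs_refl]; exact hp.b1 n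
      · intro n
        rw [coeff_refl, coeff_refl, ← mul_sub, abs_refl]; exact hp.e0 n
      · intro n
        rw [der_refl, der_refl, coeff_neg, coeff_neg, coeff_refl, coeff_refl,
          neg_sub_neg, ← mul_sub, abs_refl, abs_sub_comm]
        exact hp.e1 n
    have hder : (derivative (g.comp (-X))).eval (-θ) = -(derivative g).eval θ := by
      rw [der_refl, eval_neg, eval_refl, neg_neg]
    have hder2 : (derivative (derivative (g.comp (-X)))).eval (-θ) =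
        (derivative (derivative g)).eval θ := by
      rw [der_refl, derivative_neg, der_refl, neg_neg, eval_refl, neg_neg]
    have hR : Rg (g.comp (-X)) (-θ) := by
      refine ⟨by rw [eval_refl, neg_neg]; exact hroot, ?_, ?_, ?_⟩
      · intro j hj h1
        rw [iter_refl] at h1 ⊢
        have hu : ((-1:ℝ) ^ j) ≠ 0 := pow_ne_zero _ (by norm_num)
        rw [eval_mul, eval_C, eval_refl, neg_neg]
        refine mul_ne_zero hu (honly j hj fun hc => h1 ?_)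
        rw [hc]; simp
      · rw [hder, hder2]; linarith
      · rw [hder]; exact neg_ne_zero.2 hne
    obtain ⟨l3, x3, y, y3, y4⟩ := stepA (T := T + 1) hN hp' hR (by rw [abs_neg]; exact hθ)
      (by rw [hder, abs_neg]; exact hval) x2.1 (x12.2.2 0 h0) (by
        intro z hz
        obtain ⟨g1, g2, g3⟩ := hZ (-z) (ZZ_refl hz)
        refine ⟨?_, by rwa [abs_neg] at g2, ?_⟩
        · rwa [show -θ - z = -(θ - -z) by ring, abs_neg]
        · intro l₁ hl₁ hsub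
          obtain ⟨l', e1, y, e2, e3⟩ := g3 l₁ hl₁ (fun a ha => hsub a (x12.2.2 a ha))
          obtain ⟨l'', e4, e5⟩ := ext_sub hP e1.1
            (Or.inr (e1.2.2 0 (hsub 0 (x12.2.2 0 h0)))) e2
          refine ⟨l'', e1.trans e4, 0 - y, e5, ?_⟩
          rwa [show z - (0 - y) = -(-z - y) by ring, abs_neg])
      (fun n => by
        rw [coeff_refl]
        exact hmul n _ (x12.mem (hc n)) (x2.mem (y1 n)))
      (fun n => by
        have e : (derivative (f.comp (-X))).coeff n = (-1) ^ (n + 1) * (derivative f).coeff n := by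
          rw [der_refl, coeff_neg, coeff_refl, pow_succ]; ring
        rw [e]
        exact hmul (n + 1) _ (x12.mem (hc' n)) (y2 n))
      (x12.mem hρ) k
    obtain ⟨l4, x4, y5⟩ := ext_sub hP x3.1 (Or.inr (x3.2.2 0 (x12.2.2 0 h0))) y3
    refine ⟨l4, ((x12.trans x3).trans x4).le (by rw [L1]; omega), 0 - y, y5, ?_⟩
    rwa [show θ - (0 - y) = -(-θ - y) by ring, abs_neg]

end Pool.Agent.SLPQ
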